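import Mathlib

/-!
# Determinant lemmas
-/

namespace Pool.Agent.H137R3.TB

open Matrix

/-- In a UFD with an involution `τ`, a relation `c τ(c) F = D₀ (D τ(D))` with `c` prime to `D₀`
implies that `F = D₀ (N τ(N))` for some `N`. -/
theorem exists_norm_form {R : Type*} [CommRing R] [IsDomain R] [UniqueFactorizationMonoid R]
    (τ : R →+* R) (hτ : ∀ x, τ (τ x) = x) {F D₀ c D : R} (hc : c ≠ 0) (hrel : IsRelPrime c D₀)
    (h : c * τ c * F = D₀ * (D * τ D)) : ∃ N, F = D₀ * (N * τ N) := by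
  obtain ⟨D', c', g, hrel', hD, hc'⟩ :=
    UniqueFactorizationMonoid.exists_reduced_factors' D c hc
  subst hD
  subst hc'
  have hg : g ≠ 0 := left_ne_zero_of_mul hc
  have hc0 : c' ≠ 0 := right_ne_zero_of_mul hc
  have hinj : ∀ x, τ x = 0 → x = 0 := by
    intro x hx
    rw [← hτ x, hx, map_zero]
  have hτg : τ g ≠ 0 := fun h0 => hg (hinj _ h0)
  have hτc : τ c' ≠ 0 := fun h0 => hc0 (hinj _ h0)
  have h1 : c' * τ c' * F = D₀ * (D' * τ D') := by
    rw [map_mul, map_mul] at h
    apply mul_left_cancel₀ (mul_ne_zero hg hτg)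
    linear_combination h
  have h2 : c' ∣ D₀ * (D' * τ D') := by
    rw [← h1, mul_assoc]
    exact dvd_mul_right _ _
  have h3 : IsRelPrime c' D₀ := fun d hd1 hd2 => hrel (hd1.mul_left _) hd2
  have h4 : c' ∣ D' * τ D' := h3.dvd_of_dvd_mul_left h2
  have h5 : c' ∣ τ D' := hrel'.symm.dvd_of_dvd_mul_left h4
  obtain ⟨N, hN⟩ := h5
  have hN' : D' = τ c' * τ N := by rw [← hτ D', hN, map_mul]
  refine ⟨N, ?_⟩
  apply mul_left_cancel₀ (mul_ne_zero hc0 hτc)
  rw [h1, hN, hN']
  ring

section mat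

variable {n : Type*} [Fintype n] [DecidableEq n] {K : Type*} [CommRing K]

/-- The determinant on the complement of the image of the idempotent `E`. -/
def wdet (E M : Matrix n n K) : K := (M * (1 - E) + E).det

variable {E : Matrix n n K}

theorem wdet_mul (hE : E * E = E) {M N : Matrix n n K} (hN : E * N = N * E) :
    wdet E (M * N) = wdet E M * wdet E N := by
  unfold wdet
  rw [← det_mul]
  congr 1
  have h1 : (1 - E) * E = 0 := by rw [sub_mul, one_mul, hE, sub_self]
  have h2 : E * (N * (1 - E)) = 0 := by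
    rw [← mul_assoc, hN, mul_assoc, mul_sub, mul_one, hE, sub_self, mul_zero]
  have h3 : (1 - E) * (N * (1 - E)) = N * (1 - E) := by
    rw [sub_mul, one_mul, h2, sub_zero]
  rw [add_mul, mul_add, mul_add, h2, hE, zero_add, mul_assoc M (1 - E) E, h1, mul_zero, add_zero,
    mul_assoc M (1 - E), h3, mul_assoc]

theorem wdet_one : wdet E (1 : Matrix n n K) = 1 := by
  unfold wdet
  rw [one_mul, sub_add_cancel, det_one]

theorem det_eq_mul_wdet (hE : E * E = E) (hdet : ∀ c : K, (1 + c • E).det = 1 + c)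
    {M : Matrix n n K} {e : K} (h : M * E = e • E) : M.det = e * wdet E M := by
  have h1 : M = (M * (1 - E) + E) * (1 + (e - 1) • E) := by
    rw [mul_add, mul_one, mul_smul_comm, add_mul, mul_assoc, sub_mul, one_mul, hE, sub_self,
      mul_zero, zero_add, mul_sub, mul_one, h, sub_smul, one_smul]
    abel
  conv_lhs => rw [h1]
  rw [det_mul, hdet]
  unfold wdet
  ring

theorem wdet_eq (M : Matrix n n K) : wdet E M = (1 + (M - 1) * (1 - E)).det := by
  unfold wdet
  congr 1
  rw [sub_mul, one_mul]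
  abel

theorem map_wdet (τ : K →+* K) (hEτ : E.map τ = E) (M : Matrix n n K) :
    τ (wdet E M) = wdet E (M.map τ) := by
  have h := RingHom.map_det τ (M * (1 - E) + E)
  unfold wdet
  rw [h]
  congr 1
  rw [map_add, map_mul, map_sub, map_one]
  simp only [RingHom.mapMatrix_apply, hEτ]

theorem wdet_inter {R₀ Q : Matrix n n K} (h1 : R₀ * Q = 1 - E) (h2 : Q * R₀ = 1 - E)
    {M N : Matrix n n K} (h : R₀ * M = N * R₀) : wdet E M = wdet E N := by
  have e1 : (M - 1) * (1 - E) = ((M - 1) * Q) * R₀ := by rw [mul_assoc, h2]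
  have e2 : R₀ * ((M - 1) * Q) = (N - 1) * (1 - E) := by
    rw [← mul_assoc, mul_sub, mul_one, h, ← h1]
    noncomm_ring
  rw [wdet_eq, wdet_eq, e1, det_one_add_mul_comm, e2]

theorem wdet_split (τ : K →+* K) {R₀ Q J Z : Matrix n n K} {h : K} (hh : h + h = 1)
    (hτh : τ h = h) (hE : E * E = E) (h1 : R₀ * Q = 1 - E) (h2 : Q * R₀ = 1 - E)
    (hJ : J * J = 1) (hJE : J * E = E) (hEJ : E * J = E) (hJτ : J.map τ = J)
    (hRJ : R₀ * J = - (J * R₀)) (hRZ : R₀ * Z = Z.map τ * R₀) (hZJ : Z * J = J * Z)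
    (hZE : Z * E = E * Z) : ∃ D : K, wdet E Z = D * τ D := by
  refine ⟨(1 + (Z - 1) * (h • (1 - J))).det, ?_⟩
  have hτD : τ (1 + (Z - 1) * (h • (1 - J))).det =
      (1 + (Z.map τ - 1) * (h • (1 - J))).det := by
    have := RingHom.map_det τ (1 + (Z - 1) * (h • (1 - J)))
    rw [this]
    congr 1
    rw [map_add, map_mul, map_sub, map_one]
    have h3 : τ.mapMatrix (h • (1 - J)) = h • (1 - J) := by
      ext i j
      have := congrFun (congrFun hJτ i) j
      simp only [Matrix.map_apply] at this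
      simp only [RingHom.mapMatrix_apply, Matrix.map_apply, Matrix.smul_apply, smul_eq_mul,
        map_mul, hτh, Matrix.sub_apply, map_sub, this]
      congr 2
      by_cases hij : i = j
      · subst hij; simp
      · simp [Matrix.one_apply_ne hij]
    rw [h3, RingHom.mapMatrix_apply]
  have e3 : R₀ * (h • (1 + J)) * Q = h • (1 - J) := by
    rw [mul_smul_comm, mul_add, mul_one, hRJ]
    have : (R₀ + -(J * R₀)) = (1 - J) * R₀ := by rw [sub_mul, one_mul]; abel
    rw [this, smul_mul_assoc, mul_assoc, h1]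
    congr 1
    rw [mul_sub, mul_one, sub_mul, one_mul, hJE, sub_self, sub_zero]
  have e4 : (Z.map τ - 1) * (h • (1 - J)) = R₀ * ((Z - 1) * (h • (1 + J)) * Q) := by
    rw [← e3]
    have : R₀ * (Z - 1) = (Z.map τ - 1) * R₀ := by rw [mul_sub, sub_mul, hRZ, mul_one, one_mul]
    calc (Z.map τ - 1) * (R₀ * (h • (1 + J)) * Q)
        = ((Z.map τ - 1) * R₀) * (h • (1 + J)) * Q := by noncomm_ring
      _ = (R₀ * (Z - 1)) * (h • (1 + J)) * Q := by rw [this]
      _ = R₀ * ((Z - 1) * (h • (1 + J)) * Q) := by noncomm_ring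
  have e5 : (Z - 1) * (h • (1 + J)) * Q * R₀ = (Z - 1) * (h • (1 + J) - E) := by
    rw [mul_assoc _ Q, h2, mul_assoc]
    congr 1
    have hE2 : h • (E + E) = E := by rw [smul_add, ← add_smul, hh, one_smul]
    rw [mul_sub, mul_one, smul_mul_assoc, add_mul, one_mul, hJE, hE2]
  have e6 : (1 + R₀ * ((Z - 1) * (h • (1 + J)) * Q)).det =
      (1 + (Z - 1) * (h • (1 + J) - E)).det := by
    rw [det_one_add_mul_comm, e5]
  rw [hτD, e4, e6, mul_comm, ← det_mul, wdet_eq]
  congr 1
  have c1 : (h • (1 + J) - E) * (Z - 1) = (Z - 1) * (h • (1 + J) - E) := by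
    have k1 : Commute (1 + J) Z := (Commute.one_left Z).add_left hZJ.symm
    have k2 : Commute (h • (1 + J)) Z := k1.smul_left h
    have k3 : Commute (h • (1 + J) - E) Z := k2.sub_left hZE.symm
    exact k3.sub_right (Commute.one_right _)
  have c2 : (h • (1 + J) - E) * (h • (1 - J)) = 0 := by
    rw [mul_smul_comm, sub_mul, smul_mul_assoc]
    have : (1 + J) * (1 - J) = 0 := by
      rw [mul_sub, mul_one, add_mul, one_mul, hJ]; abel
    rw [this, smul_zero, mul_sub, mul_one, hEJ, sub_self, sub_self, smul_zero]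
  have c3 : h • (1 + J) - E + h • (1 - J) = 1 - E := by
    rw [sub_add_eq_add_sub, ← smul_add]
    congr 1
    have : (1 + J + (1 - J) : Matrix n n K) = 1 + 1 := by abel
    rw [this, smul_add, ← add_smul, hh, one_smul]
  generalize h • (1 + J) - E = U at *
  generalize h • (1 - J) = V at *
  calc 1 + (Z - 1) * (1 - E)
      = 1 + (Z - 1) * (U + V) := by rw [c3]
    _ = 1 + (Z - 1) * U + (Z - 1) * V := by noncomm_ring
    _ = 1 + (Z - 1) * U + (Z - 1) * V + (Z - 1) * ((Z - 1) * (U * V)) := by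
        rw [c2, mul_zero, mul_zero, add_zero]
    _ = 1 + (Z - 1) * U + (Z - 1) * V + (Z - 1) * (((Z - 1) * U) * V) := by
        rw [mul_assoc (Z - 1) U V]
    _ = 1 + (Z - 1) * U + (Z - 1) * V + (Z - 1) * ((U * (Z - 1)) * V) := by
        rw [c1]
    _ = (1 + (Z - 1) * U) * (1 + (Z - 1) * V) := by
        noncomm_ring

theorem wdet_dvd (hE : E * E = E) {X Y A B S R : Matrix n n K} (hA : E * A = A * E)
    (hB : E * B = B * E) (h0 : X * A + Y * B = 0) (h1 : S * A + R * B = 1 - E) :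
    ∃ F : K, wdet E X = F * wdet E B := by
  have hEE : (1 - E) * E = 0 := by rw [sub_mul, one_mul, hE, sub_self]
  have hEE' : E * (1 - E) = 0 := by rw [mul_sub, mul_one, hE, sub_self]
  have hEE2 : (1 - E) * (1 - E) = 1 - E := by rw [mul_sub, mul_one, hEE, sub_zero]
  have hA' : (1 - E) * A = A * (1 - E) := by rw [sub_mul, mul_sub, one_mul, mul_one, hA]
  have hB' : (1 - E) * B = B * (1 - E) := by rw [sub_mul, mul_sub, one_mul, mul_one, hB]
  have hEA : E * A * (1 - E) = 0 := by rw [hA, mul_assoc, hEE', mul_zero]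
  have hEB : E * B * (1 - E) = 0 := by rw [hB, mul_assoc, hEE', mul_zero]
  refine ⟨(fromBlocks (X * (1 - E) + E) (Y * (1 - E)) (S * (1 - E)) (R * (1 - E) + E)).det, ?_⟩
  have hU : (fromBlocks (1 : Matrix n n K) (A * (1 - E)) 0 (B * (1 - E) + E)).det =
      wdet E B := by
    rw [det_fromBlocks_zero₂₁, det_one, one_mul]; rfl
  rw [← hU, ← det_mul, fromBlocks_multiply]
  have b12 : (X * (1 - E) + E) * (A * (1 - E)) + Y * (1 - E) * (B * (1 - E) + E) = 0 := by
    calc (X * (1 - E) + E) * (A * (1 - E)) + Y * (1 - E) * (B * (1 - E) + E)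
        = X * ((1 - E) * A) * (1 - E) + E * A * (1 - E) + Y * ((1 - E) * B) * (1 - E) +
            Y * ((1 - E) * E) := by noncomm_ring
      _ = (X * A + Y * B) * ((1 - E) * (1 - E)) := by
          rw [hA', hB', hEA, hEE]; noncomm_ring
      _ = 0 := by rw [h0, zero_mul]
  have b22 : S * (1 - E) * (A * (1 - E)) + (R * (1 - E) + E) * (B * (1 - E) + E) = 1 := by
    calc S * (1 - E) * (A * (1 - E)) + (R * (1 - E) + E) * (B * (1 - E) + E)
        = S * ((1 - E) * A) * (1 - E) + R * ((1 - E) * B) * (1 - E) + R * ((1 - E) * E) +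
            E * B * (1 - E) + E * E := by noncomm_ring
      _ = (S * A + R * B) * ((1 - E) * (1 - E)) + E := by
          rw [hA', hB', hEB, hEE, hE]; noncomm_ring
      _ = 1 := by rw [h1, hEE2, hEE2, sub_add_cancel]
  rw [b12, b22, mul_one, mul_one, mul_zero, mul_zero, add_zero, add_zero, det_fromBlocks_zero₁₂,
    det_one, mul_one]
  rfl

end mat

end Pool.Agent.H137R3.TB
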