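import Pool.Agent.H137R3.TB.Defs

/-!
# The symmetry exchanging the two meridian generators of a two-bridge knot group

The automorphism `a ↔ b` of the free group sends Schubert's relator to a conjugate of its inverse.
-/

namespace Pool.Agent.H137R3.TB

open LaurentPolynomial

noncomputable section

/-- The automorphism of the free group exchanging `a` and `b`. -/
def swapHom : F2 →* F2 := FreeGroup.lift fun i => FreeGroup.of (1 - i)

theorem swapHom_ga : swapHom ga = gb := by simp [swapHom, ga, gb]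

theorem swapHom_gb : swapHom gb = ga := by simp [swapHom, ga, gb]

/-- The sign attached to `i q - 1/2` modulo `2 m`. -/
def eta (m : ℕ) (q : ℤ) (i : ℤ) : ℤ :=
  if 1 ≤ (i * q) % (2 * m) ∧ (i * q) % (2 * m) ≤ m then 1 else -1

/-- The letters of the relator, as a periodic sequence. -/
def letter (m : ℕ) (q : ℤ) (i : ℤ) : F2 := (if Even i then gb else ga) ^ eta m q i

/-- Products of consecutive letters. -/
def window (m : ℕ) (q : ℤ) (s : ℤ) (len : ℕ) : F2 :=
  ((List.range len).map fun k : ℕ => letter m q (s + k)).prod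

variable {m : ℕ} {q : ℤ}

theorem window_zero (s : ℤ) : window m q s 0 = 1 := by simp [window]

theorem window_succ (s : ℤ) (len : ℕ) :
    window m q s (len + 1) = window m q s len * letter m q (s + len) := by
  simp [window, List.range_succ]

theorem window_add (s : ℤ) (l₁ l₂ : ℕ) :
    window m q s (l₁ + l₂) = window m q s l₁ * window m q (s + l₁) l₂ := by
  induction l₂ with
  | zero => simp [window_zero]
  | succ l ih =>
    rw [← add_assoc, window_succ, ih, window_succ, mul_assoc]
    congr 3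
    push_cast
    ring

theorem eta_periodic (i : ℤ) : eta m q (i + 2 * m) = eta m q i := by
  have : ((i + 2 * m) * q) % (2 * m) = (i * q) % (2 * m) := by
    rw [show (i + 2 * (m : ℤ)) * q = i * q + 2 * m * q by ring, Int.add_mul_emod_self_left]
  unfold eta
  rw [this]

theorem letter_periodic (i : ℤ) : letter m q (i + 2 * m) = letter m q i := by
  have : Even (i + 2 * (m : ℤ)) ↔ Even i := by
    rw [Int.even_add]
    simp
  unfold letter
  simp only [eta_periodic, this]

theorem window_periodic (s : ℤ) (len : ℕ) : window m q (s + 2 * m) len = window m q s len := by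
  unfold window
  congr 1
  apply List.map_congr_left
  intro k _
  rw [show s + 2 * (m : ℤ) + k = s + k + 2 * m by ring, letter_periodic]

theorem prod_inv_aux (len : ℕ) (f : ℕ → F2) :
    ((List.range len).map fun k => (f (len - 1 - k))⁻¹).prod =
      (((List.range len).map f).prod)⁻¹ := by
  induction len with
  | zero => simp
  | succ len ih =>
    have h1 : (((List.range (len + 1)).map f).prod)⁻¹ =
        (f len)⁻¹ * (((List.range len).map f).prod)⁻¹ := by
      rw [List.range_succ, List.map_append, List.prod_append]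
      simp
    rw [h1, ← ih, List.range_succ_eq_map]
    simp only [List.map_cons, List.prod_cons, List.map_map]
    congr 2
    apply List.map_congr_left
    intro k hk
    rw [List.mem_range] at hk
    simp only [Function.comp_apply]
    congr 2
    omega

theorem letter_swap {s : ℤ} (hm : 0 < m) (hs : Odd s) (h : (2 * (m : ℤ)) ∣ s * q - 1) (i : ℤ) :
    swapHom (letter m q i) = (letter m q (s - i))⁻¹ := by
  have hm' : (0 : ℤ) < m := by exact_mod_cast hm
  have hE : Even (s - i) ↔ ¬ Even i := by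
    rw [Int.even_sub]
    have : ¬ Even s := Int.not_even_iff_odd.mpr hs
    tauto
  have heta : eta m q (s - i) = - eta m q i := by
    have hx0 := Int.emod_nonneg (i * q) (show (2 * (m : ℤ)) ≠ 0 by omega)
    have hx1 := Int.emod_lt_of_pos (i * q) (show (0 : ℤ) < 2 * m by omega)
    have hy0 := Int.emod_nonneg ((s - i) * q) (show (2 * (m : ℤ)) ≠ 0 by omega)
    have hy1 := Int.emod_lt_of_pos ((s - i) * q) (show (0 : ℤ) < 2 * m by omega)
    have hd : (2 * (m : ℤ)) ∣ (i * q) % (2 * m) + ((s - i) * q) % (2 * m) - 1 := by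
      have h1 := Int.emod_add_mul_ediv (i * q) (2 * m)
      have h2 := Int.emod_add_mul_ediv ((s - i) * q) (2 * m)
      obtain ⟨t, ht⟩ := h
      refine ⟨t - i * q / (2 * m) - (s - i) * q / (2 * m), ?_⟩
      linear_combination h1 + h2 + ht
    unfold eta
    generalize (i * q) % (2 * (m : ℤ)) = x at *
    generalize ((s - i) * q) % (2 * (m : ℤ)) = y at *
    obtain ⟨c, hc⟩ := hd
    have hc0 : 0 ≤ c := by
      by_contra hcon
      have : 2 * (m : ℤ) * c ≤ 2 * m * (-1) := by
        apply mul_le_mul_of_nonneg_left <;> omega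
      omega
    have hc1 : c ≤ 1 := by
      by_contra hcon
      have : 2 * (m : ℤ) * 2 ≤ 2 * m * c := by
        apply mul_le_mul_of_nonneg_left <;> omega
      omega
    have hc2 : c = 0 ∨ c = 1 := by omega
    rcases hc2 with rfl | rfl
    · split_ifs <;> omega
    · split_ifs <;> omega
  unfold letter
  rw [heta, map_zpow, zpow_neg, inv_inv]
  by_cases hi : Even i
  · have : ¬ Even (s - i) := by rw [hE]; simpa using hi
    rw [if_pos hi, if_neg this, swapHom_gb]
  · have : Even (s - i) := by rw [hE]; exact hi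
    rw [if_neg hi, if_pos this, swapHom_ga]

theorem schubertSign_eq (hm : 0 < m) (hmq : IsCoprime (m : ℤ) q) {i : ℕ} (hi : 0 < i)
    (him : i < m) : schubertSign m q i = eta m q i := by
  have hm' : (0 : ℤ) < m := by exact_mod_cast hm
  unfold schubertSign eta
  have h1 := Int.emod_add_mul_ediv ((i : ℤ) * q) m
  have hR0 := Int.emod_nonneg ((i : ℤ) * q) (show (m : ℤ) ≠ 0 by omega)
  have hR1 := Int.emod_lt_of_pos ((i : ℤ) * q) hm'
  have hRne : ((i : ℤ) * q) % m ≠ 0 := by
    intro h0
    have hdvd : (m : ℤ) ∣ i * q := Int.dvd_of_emod_eq_zero h0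
    have hd2 : (m : ℤ) ∣ i := hmq.dvd_of_dvd_mul_right hdvd
    have := Int.le_of_dvd (by exact_mod_cast hi) hd2
    omega
  generalize hQ : ((i : ℤ) * q) / m = Q at *
  generalize hR : ((i : ℤ) * q) % m = R at *
  rcases Int.even_or_odd Q with hQe | hQo
  · have hx : ((i : ℤ) * q) % (2 * m) = R := by
      obtain ⟨t, ht⟩ := hQe
      rw [show (i : ℤ) * q = R + 2 * m * t by rw [← h1, ht]; ring, Int.add_mul_emod_self_left]
      exact Int.emod_eq_of_lt hR0 (by omega)
    rw [hx, if_pos (by omega), Even.neg_one_pow (Int.natAbs_even.mpr hQe)]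
  · have hx : ((i : ℤ) * q) % (2 * m) = R + m := by
      obtain ⟨t, ht⟩ := hQo
      rw [show (i : ℤ) * q = (R + m) + 2 * m * t by rw [← h1, ht]; ring,
        Int.add_mul_emod_self_left]
      exact Int.emod_eq_of_lt (by omega) (by omega)
    rw [hx, if_neg (by omega), Odd.neg_one_pow (Int.natAbs_odd.mpr hQo)]

theorem letter_reflect (hm : 0 < m) (hmq : IsCoprime (m : ℤ) q) {i : ℕ} (hi : 0 < i)
    (him : i < m) : letter m q (m + i) = (letter m q (m - i))⁻¹ := by
  have hm' : (0 : ℤ) < m := by exact_mod_cast hm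
  have hE : Even ((m : ℤ) + i) ↔ Even ((m : ℤ) - i) := by
    rw [Int.even_sub, Int.even_add]
  have heta : eta m q (m + i) = - eta m q (m - i) := by
    have hx0 := Int.emod_nonneg (((m : ℤ) + i) * q) (show (2 * (m : ℤ)) ≠ 0 by omega)
    have hx1 := Int.emod_lt_of_pos (((m : ℤ) + i) * q) (show (0 : ℤ) < 2 * m by omega)
    have hy0 := Int.emod_nonneg (((m : ℤ) - i) * q) (show (2 * (m : ℤ)) ≠ 0 by omega)
    have hy1 := Int.emod_lt_of_pos (((m : ℤ) - i) * q) (show (0 : ℤ) < 2 * m by omega)
    have h1 := Int.emod_add_mul_ediv (((m : ℤ) + i) * q) (2 * m)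
    have h2 := Int.emod_add_mul_ediv (((m : ℤ) - i) * q) (2 * m)
    have hd : (2 * (m : ℤ)) ∣ (((m : ℤ) + i) * q) % (2 * m) + (((m : ℤ) - i) * q) % (2 * m) := by
      refine ⟨q - ((m : ℤ) + i) * q / (2 * m) - ((m : ℤ) - i) * q / (2 * m), ?_⟩
      linear_combination h1 + h2
    have hnd : ¬ (m : ℤ) ∣ (((m : ℤ) + i) * q) % (2 * m) := by
      intro hcon
      have hdvd : (m : ℤ) ∣ i * q := by
        obtain ⟨t, ht⟩ := hcon
        refine ⟨t + 2 * (((m : ℤ) + i) * q / (2 * m)) - q, ?_⟩
        linear_combination (-1 : ℤ) * h1 + ht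
      have hd2 : (m : ℤ) ∣ i := hmq.dvd_of_dvd_mul_right hdvd
      have := Int.le_of_dvd (by exact_mod_cast hi) hd2
      omega
    unfold eta
    generalize (((m : ℤ) + i) * q) % (2 * (m : ℤ)) = x at *
    generalize (((m : ℤ) - i) * q) % (2 * (m : ℤ)) = y at *
    have hxm : x ≠ m := fun h => hnd (h ▸ dvd_refl _)
    have hx00 : x ≠ 0 := fun h => hnd (h ▸ dvd_zero _)
    obtain ⟨c, hc⟩ := hd
    have hc0 : 0 < c := by
      by_contra hcon
      have : 2 * (m : ℤ) * c ≤ 2 * m * 0 := by
        apply mul_le_mul_of_nonneg_left <;> omega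
      omega
    have hc1 : c ≤ 1 := by
      by_contra hcon
      have : 2 * (m : ℤ) * 2 ≤ 2 * m * c := by
        apply mul_le_mul_of_nonneg_left <;> omega
      omega
    obtain rfl : c = 1 := by omega
    split_ifs <;> omega
  unfold letter
  rw [heta, zpow_neg]
  simp only [hE]

theorem schubertWord_eq (hm : 0 < m) (hmq : IsCoprime (m : ℤ) q) :
    schubertWord m q = window m q 1 (m - 1) := by
  unfold schubertWord window
  congr 1
  apply List.map_congr_left
  intro k hk
  rw [List.mem_range] at hk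
  rw [schubertSign_eq hm hmq (by omega) (by omega)]
  unfold letter
  have hE : Even (1 + (k : ℤ)) ↔ ¬ Even k := by
    rw [Int.even_add, Int.even_coe_nat]
    simp
  push_cast
  rw [show (k : ℤ) + 1 = 1 + k by ring]
  by_cases hk : Even k
  · rw [if_pos hk, if_neg (by rw [hE]; simpa using hk)]
  · rw [if_neg hk, if_pos (by rw [hE]; exact hk)]

theorem window_one_len (hm : 0 < m) (hmo : Odd m) (hq : Odd q) (hmq : IsCoprime (m : ℤ) q) :
    window m q 1 (2 * m) = relator m q := by
  have hm' : (0 : ℤ) < m := by exact_mod_cast hm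
  obtain ⟨d, rfl⟩ : ∃ d, m = d + 1 := ⟨m - 1, by omega⟩
  have hlm : letter (d + 1) q ((d + 1 : ℕ) : ℤ) = ga := by
    unfold letter
    have h1 : ¬ Even (((d + 1 : ℕ) : ℤ)) := by
      rw [Int.even_coe_nat]; exact Nat.not_even_iff_odd.mpr hmo
    rw [if_neg h1]
    have h2 : eta (d + 1) q ((d + 1 : ℕ) : ℤ) = 1 := by
      unfold eta
      have : (((d + 1 : ℕ) : ℤ) * q) % (2 * ((d + 1 : ℕ) : ℤ)) = ((d + 1 : ℕ) : ℤ) := by
        obtain ⟨t, ht⟩ := hq
        rw [show ((d + 1 : ℕ) : ℤ) * q = ((d + 1 : ℕ) : ℤ) + 2 * ((d + 1 : ℕ) : ℤ) * t by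
          rw [ht]; ring, Int.add_mul_emod_self_left]
        exact Int.emod_eq_of_lt (by omega) (by omega)
      rw [this, if_pos (by omega)]
    rw [h2, zpow_one]
  have hl2m : letter (d + 1) q (2 * ((d + 1 : ℕ) : ℤ)) = gb⁻¹ := by
    unfold letter
    rw [if_pos (by simp)]
    have h2 : eta (d + 1) q (2 * ((d + 1 : ℕ) : ℤ)) = -1 := by
      unfold eta
      rw [Int.mul_emod_right, if_neg (by omega)]
    rw [h2, zpow_neg, zpow_one]
  have hinv : window (d + 1) q (((d + 1 : ℕ) : ℤ) + 1) d = (window (d + 1) q 1 d)⁻¹ := by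
    unfold window
    rw [← prod_inv_aux]
    congr 1
    apply List.map_congr_left
    intro k hk
    rw [List.mem_range] at hk
    rw [show ((d + 1 : ℕ) : ℤ) + 1 + k = ((d + 1 : ℕ) : ℤ) + ((k + 1 : ℕ) : ℤ) by push_cast; ring,
      letter_reflect hm hmq (by omega) (by omega)]
    congr 2
    push_cast [Nat.cast_sub (show k ≤ d - 1 by omega), Nat.cast_sub (show 1 ≤ d by omega)]
    ring
  have hsplit : 2 * (d + 1) = (d + 1) + (d + 1) := by ring
  rw [hsplit, window_add, window_succ, window_succ]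
  rw [show (1 : ℤ) + (d : ℤ) = ((d + 1 : ℕ) : ℤ) by push_cast; ring, hlm]
  rw [show (1 : ℤ) + ((d + 1 : ℕ) : ℤ) = ((d + 1 : ℕ) : ℤ) + 1 by ring, hinv]
  rw [show ((d + 1 : ℕ) : ℤ) + 1 + (d : ℤ) = 2 * ((d + 1 : ℕ) : ℤ) by push_cast; ring, hl2m]
  unfold relator
  rw [schubertWord_eq hm hmq, Nat.add_sub_cancel, ← mul_assoc]

theorem exists_shift (hm : 0 < m) (hmo : Odd m) (hq : Odd q) (hmq : IsCoprime (m : ℤ) q) :
    ∃ s : ℕ, Odd (s : ℤ) ∧ (2 * (m : ℤ)) ∣ s * q - 1 := by
  have hm' : (0 : ℤ) < m := by exact_mod_cast hm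
  have h2 : IsCoprime (2 : ℤ) q := by
    obtain ⟨t, ht⟩ := hq
    exact ⟨-t, 1, by rw [ht]; ring⟩
  have hc : IsCoprime (2 * (m : ℤ)) q := IsCoprime.mul_left h2 hmq
  obtain ⟨u, v, huv⟩ := hc
  have hnn := Int.emod_nonneg v (show (2 * (m : ℤ)) ≠ 0 by omega)
  have hs : ((v % (2 * m)).toNat : ℤ) = v % (2 * m) := Int.toNat_of_nonneg hnn
  have hd : (2 * (m : ℤ)) ∣ ((v % (2 * m)).toNat : ℤ) * q - 1 := by
    rw [hs]
    have h1 := Int.emod_add_mul_ediv v (2 * m)
    refine ⟨-u - (v / (2 * m)) * q, ?_⟩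
    linear_combination q * h1 + huv
  refine ⟨(v % (2 * m)).toNat, ?_, hd⟩
  have h3 : (2 : ℤ) ∣ ((v % (2 * m)).toNat : ℤ) * q - 1 := (Dvd.intro _ rfl).trans hd
  have h4 : Odd (((v % (2 * m)).toNat : ℤ) * q) := by
    obtain ⟨t, ht⟩ := h3
    exact ⟨t, by linarith⟩
  exact (Int.odd_mul.mp h4).1

/-- The automorphism exchanging the two generators sends the relator to a conjugate of its
inverse. -/
theorem swap_relator (hm : 0 < m) (hmo : Odd m) (hq : Odd q) (hmq : IsCoprime (m : ℤ) q) :
    ∃ g : F2, swapHom (relator m q) = g * (relator m q)⁻¹ * g⁻¹ := by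
  obtain ⟨s, hs, hd⟩ := exists_shift hm hmo hq hmq
  have hs1 : 1 ≤ s := by
    rcases Nat.eq_zero_or_pos s with h | h
    · subst h; simp at hs
    · exact h
  obtain ⟨d, rfl⟩ : ∃ d, s = d + 1 := ⟨s - 1, by omega⟩
  have key : swapHom (window m q 1 (2 * m)) =
      (window m q ((d + 1 : ℕ) : ℤ) (2 * m))⁻¹ := by
    have h1 : window m q ((d + 1 : ℕ) : ℤ) (2 * m) =
        window m q (((d + 1 : ℕ) : ℤ) - 2 * m) (2 * m) := by
      rw [← window_periodic (s := ((d + 1 : ℕ) : ℤ) - 2 * m)]
      congr 1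
      ring
    rw [h1]
    unfold window
    rw [← prod_inv_aux, map_list_prod, List.map_map]
    congr 1
    apply List.map_congr_left
    intro k hk
    rw [List.mem_range] at hk
    simp only [Function.comp_apply]
    rw [letter_swap hm hs hd]
    congr 2
    push_cast [Nat.cast_sub (show k ≤ 2 * m - 1 by omega), Nat.cast_sub (show 1 ≤ 2 * m by omega)]
    ring
  have h2 : window m q 1 d * window m q ((d + 1 : ℕ) : ℤ) (2 * m) =
      window m q 1 (2 * m) * window m q 1 d := by
    have e1 := window_add (m := m) (q := q) 1 d (2 * m)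
    have e2 := window_add (m := m) (q := q) 1 (2 * m) d
    rw [add_comm (2 * m) d] at e2
    rw [e1] at e2
    rw [show ((d + 1 : ℕ) : ℤ) = 1 + (d : ℤ) by push_cast; ring, e2]
    congr 1
    rw [← window_periodic (s := 1)]
    push_cast
    rfl
  rw [window_one_len hm hmo hq hmq] at key h2
  refine ⟨(window m q 1 d)⁻¹, ?_⟩
  have h3 : relator m q = window m q 1 d * window m q ((d + 1 : ℕ) : ℤ) (2 * m) *
      (window m q 1 d)⁻¹ := by
    rw [h2]; group
  rw [key, h3]
  group

end

end Pool.Agent.H137R3.TB
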