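import Pool.Agent.H137R3.TB.Rep
import Pool.Agent.H137R3.TB.Swap

/-!
# The factorisation over `ℚ[t, t⁻¹]`
-/

namespace Pool.Agent.H137R3.TB

open LaurentPolynomial Matrix

noncomputable section

variable {n : ℕ} [NeZero n]

/-- The twisted ring map with values in matrices over `ℚ[t, t⁻¹]`. -/
def tw (α : F2 →* DihedralGroup n) :
    MonoidAlgebra ℤ F2 →+* Matrix (ZMod n) (ZMod n) ℚ[T;T⁻¹] :=
  (incl.mapMatrix).comp (twist α).toRingHom

/-- The abelianised ring map with values in `ℚ[t, t⁻¹]`. -/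
def abK : MonoidAlgebra ℤ F2 →+* ℚ[T;T⁻¹] := incl.comp abel.toRingHom

/-- group elements in the group ring -/
abbrev gr (u : F2) : MonoidAlgebra ℤ F2 := MonoidAlgebra.of ℤ F2 u

theorem tw_gr (α : F2 →* DihedralGroup n) (g : F2) :
    tw α (gr g) = (T (expSum g).toAdd : ℚ[T;T⁻¹]) • PP (α g) := by
  have h1 : twist α (gr g) = twistHom α g := by
    unfold twist gr
    exact MonoidAlgebra.lift_of _ _
  have h2 : tw α (gr g) = incl.mapMatrix (twistHom α g) := by
    rw [← h1]; rfl
  rw [h2]
  ext1 k l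
  simp only [twistHom, MonoidHom.coe_mk, OneHom.coe_mk, RingHom.mapMatrix_apply, Matrix.map_apply,
    Matrix.smul_apply, smul_eq_mul, map_mul, incl_T, incl_C, PP]
  congr 1

theorem abK_gr (g : F2) : abK (gr g) = T (expSum g).toAdd := by
  have h1 : abel (gr g) = T (expSum g).toAdd := by
    unfold abel gr
    exact MonoidAlgebra.lift_of _ _
  have h2 : abK (gr g) = incl (abel (gr g)) := rfl
  rw [h2, h1, incl_T]

theorem tw_mul_EE (α : F2 →* DihedralGroup n) (x : MonoidAlgebra ℤ F2) :
    tw α x * EE = abK x • EE := by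
  induction x using MonoidAlgebra.induction_on with
  | of g =>
    have h1 := tw_gr α g
    have h2 := abK_gr g
    unfold gr at h1 h2
    rw [h1, h2, smul_mul_assoc, PP_mul_EE]
  | add x y hx hy => rw [map_add, map_add, add_mul, hx, hy, add_smul]
  | smul r x hx =>
    have e1 : tw α (r • x) = r • tw α x := map_zsmul _ _ _
    have e2 : abK (r • x) = r • abK x := map_zsmul _ _ _
    rw [e1, e2, smul_mul_assoc, hx, smul_assoc]

theorem EE_mul_tw (α : F2 →* DihedralGroup n) (x : MonoidAlgebra ℤ F2) :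
    EE * tw α x = abK x • EE := by
  induction x using MonoidAlgebra.induction_on with
  | of g =>
    have h1 := tw_gr α g
    have h2 := abK_gr g
    unfold gr at h1 h2
    rw [h1, h2, mul_smul_comm, EE_mul_PP]
  | add x y hx hy => rw [map_add, map_add, mul_add, hx, hy, add_smul]
  | smul r x hx =>
    have e1 : tw α (r • x) = r • tw α x := map_zsmul _ _ _
    have e2 : abK (r • x) = r • abK x := map_zsmul _ _ _
    rw [e1, e2, mul_smul_comm, hx, smul_assoc]

/-- Both generators are sent to reflections. -/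
structure IsRefl (α : F2 →* DihedralGroup n) (i j : ZMod n) : Prop where
  ha : α ga = DihedralGroup.sr i
  hb : α gb = DihedralGroup.sr j

variable {α : F2 →* DihedralGroup n} {i j : ZMod n}

theorem expSum_ga : expSum ga = Multiplicative.ofAdd 1 := by simp [expSum, ga]

theorem expSum_gb : expSum gb = Multiplicative.ofAdd 1 := by simp [expSum, gb]

theorem tw_ga (h : IsRefl α i j) : tw α (gr ga) = (T 1 : ℚ[T;T⁻¹]) • PP (DihedralGroup.sr i) := by
  rw [tw_gr, expSum_ga, h.ha]; rfl

theorem tw_gb (h : IsRefl α i j) : tw α (gr gb) = (T 1 : ℚ[T;T⁻¹]) • PP (DihedralGroup.sr j) := by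
  rw [tw_gr, expSum_gb, h.hb]; rfl

theorem map_smul_PP (c : ℚ[T;T⁻¹]) (g : DihedralGroup n) :
    (c • PP g).map (substNeg ℚ) = (substNeg ℚ c) • PP g := by
  have h := PP_map g
  ext1 k l
  have h1 := congrFun (congrFun h k) l
  simp only [Matrix.map_apply] at h1
  simp only [Matrix.map_apply, Matrix.smul_apply, smul_eq_mul, map_mul, h1]

theorem RR_mul_gr (h : IsRefl α i j) (g : F2) :
    RR * tw α (gr g) = (tw α (gr g)).map (substNeg ℚ) * RR := by
  have hof : ∀ k : Fin 2, RR * tw α (gr (FreeGroup.of k)) =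
      (tw α (gr (FreeGroup.of k))).map (substNeg ℚ) * RR := by
    intro k
    have h0 : ∀ x : ZMod n, RR * ((T 1 : ℚ[T;T⁻¹]) • PP (DihedralGroup.sr x)) =
        ((T 1 : ℚ[T;T⁻¹]) • PP (DihedralGroup.sr x)).map (substNeg ℚ) * RR := by
      intro x
      rw [map_smul_PP, substNeg_T_one, mul_smul_comm, RR_mul_sr, smul_mul_assoc, smul_neg,
        neg_smul]
    fin_cases k
    · have := tw_ga h
      unfold ga at this
      simp only [Fin.zero_eta]
      rw [this]
      exact h0 i
    · have := tw_gb h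
      unfold gb at this
      simp only [Fin.mk_one]
      rw [this]
      exact h0 j
  induction g using FreeGroup.induction_on with
  | C1 =>
    have : gr (1 : F2) = 1 := map_one _
    rw [this, map_one, Matrix.map_one _ (map_zero _) (map_one _), one_mul, mul_one]
  | of k => exact hof k
  | inv_of k hk =>
    have e1 : tw α (gr (FreeGroup.of k)) * tw α (gr (FreeGroup.of k)⁻¹) = 1 := by
      rw [← map_mul, ← map_mul, mul_inv_cancel, map_one, map_one]
    have e2 : tw α (gr (FreeGroup.of k)⁻¹) * tw α (gr (FreeGroup.of k)) = 1 := by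
      rw [← map_mul, ← map_mul, inv_mul_cancel, map_one, map_one]
    have e3 : (tw α (gr (FreeGroup.of k)⁻¹)).map (substNeg ℚ) *
        (tw α (gr (FreeGroup.of k))).map (substNeg ℚ) = 1 := by
      rw [← Matrix.map_mul, e2, Matrix.map_one _ (map_zero _) (map_one _)]
    calc RR * tw α (gr (FreeGroup.of k)⁻¹)
        = ((tw α (gr (FreeGroup.of k)⁻¹)).map (substNeg ℚ) *
            (tw α (gr (FreeGroup.of k))).map (substNeg ℚ)) * RR *
              tw α (gr (FreeGroup.of k)⁻¹) := by rw [e3, one_mul]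
      _ = (tw α (gr (FreeGroup.of k)⁻¹)).map (substNeg ℚ) *
            (RR * tw α (gr (FreeGroup.of k))) * tw α (gr (FreeGroup.of k)⁻¹) := by
          rw [hk, ← mul_assoc]
      _ = (tw α (gr (FreeGroup.of k)⁻¹)).map (substNeg ℚ) * RR *
            (tw α (gr (FreeGroup.of k)) * tw α (gr (FreeGroup.of k)⁻¹)) := by
          simp only [mul_assoc]
      _ = (tw α (gr (FreeGroup.of k)⁻¹)).map (substNeg ℚ) * RR := by rw [e1, mul_one]
  | mul x y hx hy =>
    have : gr (x * y) = gr x * gr y := map_mul _ _ _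
    rw [this, map_mul, Matrix.map_mul, ← mul_assoc, hx, mul_assoc, hy, mul_assoc]

theorem RR_mul_tw (h : IsRefl α i j) (x : MonoidAlgebra ℤ F2) :
    RR * tw α x = (tw α x).map (substNeg ℚ) * RR := by
  induction x using MonoidAlgebra.induction_on with
  | of g => exact RR_mul_gr h g
  | add x y hx hy =>
    rw [map_add, mul_add, hx, hy, Matrix.map_add _ (map_add _), add_mul]
  | smul r x hx =>
    have e1 : tw α (r • x) = r • tw α x := map_zsmul _ _ _
    have e2 : (r • tw α x).map (substNeg ℚ) = r • (tw α x).map (substNeg ℚ) := by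
      ext1 k l
      simp only [Matrix.map_apply, Matrix.smul_apply, map_zsmul]
    rw [e1, e2, mul_smul_comm, hx, smul_mul_assoc]

theorem fox_fundamental (u : F2) :
    foxDeriv 0 u * (gr ga - 1) + foxDeriv 1 u * (gr gb - 1) = gr u - 1 := by
  have hone : ∀ k, foxDeriv k (1 : F2) = 0 := by
    intro k; simp [foxDeriv, FoxPair.one_x]
  induction u using FreeGroup.induction_on with
  | C1 =>
    have : gr (1 : F2) = 1 := map_one _
    rw [hone, hone, this]; noncomm_ring
  | of k =>
    rw [foxDeriv_of, foxDeriv_of]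
    fin_cases k
    · simp [ga]
    · simp [gb]
  | inv_of k hk =>
    have h2 : ∀ l, foxDeriv l (FreeGroup.of k)⁻¹ =
        - (gr (FreeGroup.of k)⁻¹ * foxDeriv l (FreeGroup.of k)) := by
      intro l
      have h3 := foxDeriv_mul l (FreeGroup.of k)⁻¹ (FreeGroup.of k)
      rw [inv_mul_cancel, hone] at h3
      exact eq_neg_of_add_eq_zero_left h3.symm
    have h4 : gr (FreeGroup.of k)⁻¹ * gr (FreeGroup.of k) = 1 := by
      rw [← map_mul, inv_mul_cancel, map_one]
    rw [h2, h2]
    calc -(gr (FreeGroup.of k)⁻¹ * foxDeriv 0 (FreeGroup.of k)) * (gr ga - 1) +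
        -(gr (FreeGroup.of k)⁻¹ * foxDeriv 1 (FreeGroup.of k)) * (gr gb - 1)
        = - (gr (FreeGroup.of k)⁻¹ * (foxDeriv 0 (FreeGroup.of k) * (gr ga - 1) +
            foxDeriv 1 (FreeGroup.of k) * (gr gb - 1))) := by noncomm_ring
      _ = - (gr (FreeGroup.of k)⁻¹ * (gr (FreeGroup.of k) - 1)) := by
          rw [show foxDeriv 0 (FreeGroup.of k) * (gr ga - 1) +
            foxDeriv 1 (FreeGroup.of k) * (gr gb - 1) = gr (FreeGroup.of k) - 1 from hk]
      _ = gr (FreeGroup.of k)⁻¹ - 1 := by rw [mul_sub, h4]; noncomm_ring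
  | mul x y hx hy =>
    have h1 : gr (x * y) = gr x * gr y := map_mul _ _ _
    rw [foxDeriv_mul, foxDeriv_mul, h1]
    calc (foxDeriv 0 x + gr x * foxDeriv 0 y) * (gr ga - 1) +
        (foxDeriv 1 x + gr x * foxDeriv 1 y) * (gr gb - 1)
        = (foxDeriv 0 x * (gr ga - 1) + foxDeriv 1 x * (gr gb - 1)) +
            gr x * (foxDeriv 0 y * (gr ga - 1) + foxDeriv 1 y * (gr gb - 1)) := by noncomm_ring
      _ = gr x * gr y - 1 := by rw [hx, hy]; noncomm_ring

end

end Pool.Agent.H137R3.TB
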