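import Pool.Agent.H137R3.TB.Core

/-!
# The factorisation over `ℚ[t, t⁻¹]`, continued
-/

namespace Pool.Agent.H137R3.TB

open LaurentPolynomial Matrix

noncomputable section

variable {n : ℕ} [NeZero n] {α : F2 →* DihedralGroup n} {i j : ZMod n}

theorem foxDeriv_one (k : Fin 2) : foxDeriv k (1 : F2) = 0 := by
  simp [foxDeriv, FoxPair.one_x]

theorem foxDeriv_inv (k : Fin 2) (u : F2) : foxDeriv k u⁻¹ = - (gr u⁻¹ * foxDeriv k u) := by
  have h3 := foxDeriv_mul k u⁻¹ u
  rw [inv_mul_cancel, foxDeriv_one] at h3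
  exact eq_neg_of_add_eq_zero_left h3.symm

theorem gr_mul (u v : F2) : gr (u * v) = gr u * gr v := map_mul _ _ _

theorem gr_one : gr (1 : F2) = 1 := map_one _

theorem JJ (k : ZMod n) : PP (DihedralGroup.sr k) * PP (DihedralGroup.sr k) = 1 := by
  rw [← PP_mul, DihedralGroup.sr_mul_self, PP_one]

theorem swap_gr (h : IsRefl α i j) {k : ZMod n} (hk : 2 * k = i + j) (u : F2) :
    PP (DihedralGroup.sr k) * tw α (gr u) * PP (DihedralGroup.sr k) =
      tw α (gr (swapHom u)) := by
  have hof : ∀ l : Fin 2, PP (DihedralGroup.sr k) * tw α (gr (FreeGroup.of l)) *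
      PP (DihedralGroup.sr k) = tw α (gr (swapHom (FreeGroup.of l))) := by
    intro l
    have e : ∀ x y : ZMod n, x + y = i + j →
        PP (DihedralGroup.sr k) * ((T 1 : ℚ[T;T⁻¹]) • PP (DihedralGroup.sr x)) *
          PP (DihedralGroup.sr k) = (T 1 : ℚ[T;T⁻¹]) • PP (DihedralGroup.sr y) := by
      intro x y hxy
      rw [mul_smul_comm, smul_mul_assoc, ← PP_mul, ← PP_mul, DihedralGroup.sr_mul_sr,
        DihedralGroup.r_mul_sr]
      congr 3
      have : k - (x - k) = 2 * k - x := by ring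
      rw [this, hk, ← hxy]
      ring
    fin_cases l
    · have h1 := tw_ga h
      have h2 := tw_gb h
      have h3 := swapHom_ga
      unfold ga at h1 h3
      simp only [Fin.zero_eta]
      rw [h1, h3, h2]
      exact e i j rfl
    · have h1 := tw_ga h
      have h2 := tw_gb h
      have h3 := swapHom_gb
      unfold gb at h2 h3
      simp only [Fin.mk_one]
      rw [h2, h3, h1]
      exact e j i (add_comm _ _)
  have hmul : ∀ x y : F2, PP (DihedralGroup.sr k) * tw α (gr (x * y)) * PP (DihedralGroup.sr k) =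
      (PP (DihedralGroup.sr k) * tw α (gr x) * PP (DihedralGroup.sr k)) *
        (PP (DihedralGroup.sr k) * tw α (gr y) * PP (DihedralGroup.sr k)) := by
    intro x y
    rw [gr_mul, map_mul]
    calc PP (DihedralGroup.sr k) * (tw α (gr x) * tw α (gr y)) * PP (DihedralGroup.sr k)
        = PP (DihedralGroup.sr k) * tw α (gr x) * 1 * tw α (gr y) * PP (DihedralGroup.sr k) := by
          simp only [mul_one, mul_assoc]
      _ = _ := by rw [← JJ k]; simp only [mul_assoc]
  have hone : PP (DihedralGroup.sr k) * tw α (gr 1) * PP (DihedralGroup.sr k) = 1 := by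
    rw [gr_one, map_one, mul_one, JJ]
  induction u using FreeGroup.induction_on with
  | C1 => rw [hone, map_one, gr_one, map_one]
  | of l => exact hof l
  | inv_of l hl =>
    apply left_inv_eq_right_inv
      (a := PP (DihedralGroup.sr k) * tw α (gr (FreeGroup.of l)) * PP (DihedralGroup.sr k))
    · rw [← hmul, inv_mul_cancel, hone]
    · rw [hof l, ← map_mul, ← gr_mul, ← map_mul, mul_inv_cancel, map_one, gr_one, map_one]
  | mul x y hx hy => rw [hmul, hx, hy, ← map_mul, ← gr_mul, ← map_mul]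

theorem swap_fox (h : IsRefl α i j) {k : ZMod n} (hk : 2 * k = i + j) (u : F2) :
    PP (DihedralGroup.sr k) * tw α (foxDeriv 0 u) * PP (DihedralGroup.sr k) =
      tw α (foxDeriv 1 (swapHom u)) := by
  have hof : ∀ l : Fin 2, PP (DihedralGroup.sr k) * tw α (foxDeriv 0 (FreeGroup.of l)) *
      PP (DihedralGroup.sr k) = tw α (foxDeriv 1 (swapHom (FreeGroup.of l))) := by
    intro l
    have h1 : swapHom (FreeGroup.of l) = FreeGroup.of (1 - l) := by simp [swapHom]
    rw [h1, foxDeriv_of, foxDeriv_of]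
    fin_cases l
    · simp [JJ]
    · simp
  induction u using FreeGroup.induction_on with
  | C1 => rw [map_one, foxDeriv_one, foxDeriv_one, map_zero, mul_zero, zero_mul]
  | of l => exact hof l
  | inv_of l _ =>
    rw [map_inv, foxDeriv_inv, foxDeriv_inv, map_neg, map_neg, map_mul, map_mul, ← map_inv,
      ← swap_gr h hk, ← hof l]
    calc PP (DihedralGroup.sr k) *
          -(tw α (gr (FreeGroup.of l)⁻¹) * tw α (foxDeriv 0 (FreeGroup.of l))) *
          PP (DihedralGroup.sr k)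
        = - (PP (DihedralGroup.sr k) * tw α (gr (FreeGroup.of l)⁻¹) * 1 *
            tw α (foxDeriv 0 (FreeGroup.of l)) * PP (DihedralGroup.sr k)) := by
          simp only [mul_one, mul_assoc, mul_neg, neg_mul]
      _ = _ := by rw [← JJ k]; simp only [mul_assoc]
  | mul x y hx hy =>
    rw [map_mul, foxDeriv_mul, foxDeriv_mul, map_add, map_add, map_mul, map_mul, ← hx, ← hy,
      ← swap_gr h hk]
    calc PP (DihedralGroup.sr k) * (tw α (foxDeriv 0 x) +
          tw α (gr x) * tw α (foxDeriv 0 y)) * PP (DihedralGroup.sr k)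
        = PP (DihedralGroup.sr k) * tw α (foxDeriv 0 x) * PP (DihedralGroup.sr k) +
          PP (DihedralGroup.sr k) * tw α (gr x) * 1 * tw α (foxDeriv 0 y) *
            PP (DihedralGroup.sr k) := by
          simp only [mul_one, mul_assoc, mul_add, add_mul]
      _ = _ := by rw [← JJ k]; simp only [mul_assoc]

/-- The sign character. -/
def sgn : DihedralGroup n →* ℤˣ where
  toFun g := match g with
    | DihedralGroup.r _ => 1
    | DihedralGroup.sr _ => -1
  map_one' := by rw [DihedralGroup.one_def]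
  map_mul' g h := by
    rcases g with a | a <;> rcases h with b | b <;> simp

theorem sgn_eq (h : IsRefl α i j) (g : F2) : sgn (α g) = (-1 : ℤˣ) ^ ((expSum g).toAdd) := by
  have h1 : (sgn.comp α) = (zpowersHom ℤˣ (-1)).comp expSum := by
    apply FreeGroup.ext_hom
    intro l
    fin_cases l
    · have h2 := h.ha
      have h3 := expSum_ga
      unfold ga at h2 h3
      simp only [Fin.zero_eta, MonoidHom.comp_apply]
      rw [h2, h3]
      simp [sgn]
    · have h2 := h.hb
      have h3 := expSum_gb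
      unfold gb at h2 h3
      simp only [Fin.mk_one, MonoidHom.comp_apply]
      rw [h2, h3]
      simp [sgn]
  have h2 := DFunLike.congr_fun h1 g
  simpa using h2

theorem isRefl_commute_EE (x : MonoidAlgebra ℤ F2) : EE * tw α x = tw α x * EE := by
  rw [EE_mul_tw, tw_mul_EE]

/-- The factorisation over `ℚ[t, t⁻¹]`. -/
theorem core (hn : Odd n) (h : IsRefl α i j) (hd : IsUnit (i - j)) {r : F2} (hαr : α r = 1)
    (hφr : expSum r = 1) (hswap : ∃ g : F2, swapHom r = g * r⁻¹ * g⁻¹)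
    (hA0 : (tw α (gr ga - 1)).det ≠ 0) :
    ∃ N : ℚ[T;T⁻¹], (T 1 - 1) * (tw α (foxDeriv 0 r)).det =
      abK (foxDeriv 0 r) * (tw α (gr gb - 1)).det * (N * substNeg ℚ N) := by
  have htwo := isUnit_two hn
  obtain ⟨g, hg⟩ := hswap
  obtain ⟨u2, hu2⟩ := htwo
  obtain ⟨k, hk⟩ : ∃ k : ZMod n, 2 * k = i + j := ⟨↑(u2⁻¹) * (i + j), by
    rw [← mul_assoc, ← hu2, Units.mul_inv, one_mul]⟩
  set J := PP (DihedralGroup.sr k) with hJdef
  set X := tw α (foxDeriv 0 r) with hX
  set Y := tw α (foxDeriv 1 r) with hY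
  set A := tw α (gr ga) with hA
  set B := tw α (gr gb) with hB
  set G := tw α (gr g) with hG
  have hAm : tw α (gr ga - 1) = A - 1 := by rw [map_sub, map_one]
  have hBm : tw α (gr gb - 1) = B - 1 := by rw [map_sub, map_one]
  have hrone : tw α (gr r) = 1 := by
    rw [tw_gr, hαr, hφr, PP_one]; simp
  have hrinv : tw α (gr r⁻¹) = 1 := by
    have : tw α (gr r) * tw α (gr r⁻¹) = 1 := by
      rw [← map_mul, ← gr_mul, mul_inv_cancel, gr_one, map_one]
    rwa [hrone, one_mul] at this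
  have hJJ : J * J = 1 := JJ k
  -- the fundamental identity
  have hfund : X * (A - 1) + Y * (B - 1) = 0 := by
    have h1 := congrArg (tw α) (fox_fundamental r)
    rw [map_add, map_mul, map_mul, map_sub (tw α) (gr r), hrone, map_one, sub_self, hAm, hBm] at h1
    exact h1
  -- the swap
  have hJXJ : J * X * J = - (G * Y) := by
    have e0 : foxDeriv 1 (g * r⁻¹ * g⁻¹) = foxDeriv 1 g - gr g * gr r⁻¹ * foxDeriv 1 r -
        gr g * gr r⁻¹ * gr g⁻¹ * foxDeriv 1 g := by
      rw [foxDeriv_mul, foxDeriv_mul, foxDeriv_inv, foxDeriv_inv, map_mul]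
      noncomm_ring
    have e2 : G * tw α (gr g⁻¹) = 1 := by
      rw [hG, ← map_mul, ← gr_mul, mul_inv_cancel, gr_one, map_one]
    rw [swap_fox h hk, hg, e0, map_sub, map_sub, map_mul, map_mul, map_mul, map_mul, map_mul,
      hrinv, mul_one, ← hG, e2, one_mul, ← hY]
    abel
  have hJAJ : J * A * J = B := by rw [hA, swap_gr h hk, swapHom_ga]
  have hJBJ : J * B = A * J := by
    rw [← hJAJ, mul_assoc, ← mul_assoc J J, hJJ, one_mul]
  set Z := X * (A - 1) with hZ
  have hHZ : (J * G) * Z = Z * J := by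
    have e1 : G * Z = J * Z * J := by
      have h1 : Z = - (Y * (B - 1)) := eq_neg_of_add_eq_zero_left hfund
      calc G * Z = (- (G * Y)) * (B - 1) := by rw [h1]; noncomm_ring
        _ = J * X * (J * (B - 1)) := by rw [← hJXJ]; noncomm_ring
        _ = J * X * ((A - 1) * J) := by rw [mul_sub, hJBJ, sub_mul, mul_one, one_mul]
        _ = J * Z * J := by rw [hZ]; noncomm_ring
    rw [mul_assoc, e1, ← mul_assoc, ← mul_assoc, hJJ, one_mul]
  have hEX : EE * X = X * EE := isRefl_commute_EE _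
  have hEA : EE * (A - 1) = (A - 1) * EE := by rw [← hAm]; exact isRefl_commute_EE _
  have hEB : EE * (B - 1) = (B - 1) * EE := by rw [← hBm]; exact isRefl_commute_EE _
  have hEJ : (EE : Matrix (ZMod n) (ZMod n) ℚ[T;T⁻¹]) * J = EE := EE_mul_PP _
  have hJE : J * EE = (EE : Matrix (ZMod n) (ZMod n) ℚ[T;T⁻¹]) := PP_mul_EE _
  have hdetX : X.det = abK (foxDeriv 0 r) * wdet EE X :=
    det_eq_mul_wdet EE_mul_EE det_one_add_smul_EE (tw_mul_EE α _)
  have hdetB : (B - 1).det = (T 1 - 1) * wdet EE (B - 1) := by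
    apply det_eq_mul_wdet EE_mul_EE det_one_add_smul_EE
    rw [← hBm, tw_mul_EE, map_sub, map_one, abK_gr, expSum_gb]
    rfl
  by_cases hZ0 : Z.det = 0
  · refine ⟨0, ?_⟩
    rw [hZ, det_mul, ← hAm] at hZ0
    have : X.det = 0 := by
      rcases mul_eq_zero.mp hZ0 with h1 | h1
      · exact h1
      · exact absurd h1 hA0
    rw [this]
    simp
  -- `φ(g) = 0`
  have hH2 : (J * G) * (J * G) = 1 := by
    have e1 : ((J * G) * (J * G) - 1) * Z = 0 := by
      rw [sub_mul, mul_assoc, hHZ, ← mul_assoc, hHZ, mul_assoc, hJJ, mul_one, one_mul, sub_self]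
    have e2 : ((J * G) * (J * G) - 1) * (Z * Z.adjugate) = 0 := by
      rw [← mul_assoc, e1, zero_mul]
    rw [mul_adjugate, mul_smul_comm, mul_one] at e2
    have e3 : (J * G) * (J * G) - 1 = 0 := by
      ext1 a b
      have := congrFun (congrFun e2 a) b
      simp only [Matrix.smul_apply, smul_eq_mul, Matrix.zero_apply] at this
      exact (mul_eq_zero.mp this).resolve_left hZ0
    exact sub_eq_zero.mp e3
  have hφg : (expSum g).toAdd = 0 := by
    have e1 : ((J * G) * (J * G)) * EE =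
        ((T (expSum g).toAdd * T (expSum g).toAdd : ℚ[T;T⁻¹])) •
          (EE : Matrix (ZMod n) (ZMod n) ℚ[T;T⁻¹]) := by
      have e0 : G * EE = (T (expSum g).toAdd : ℚ[T;T⁻¹]) •
          (EE : Matrix (ZMod n) (ZMod n) ℚ[T;T⁻¹]) := by rw [hG, tw_mul_EE, abK_gr]
      rw [mul_assoc, mul_assoc J G EE, e0, mul_smul_comm, mul_smul_comm, hJE, mul_assoc, e0,
        mul_smul_comm, hJE, smul_smul]
    rw [hH2, one_mul] at e1
    have e2 := congrFun (congrFun e1 0) 0
    simp only [Matrix.smul_apply, smul_eq_mul, EE, Matrix.of_apply] at e2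
    have e3 : (T (expSum g).toAdd * T (expSum g).toAdd : ℚ[T;T⁻¹]) = 1 := by
      have e4 : (n : ℚ[T;T⁻¹]) * C ((n : ℚ)⁻¹) = (T (expSum g).toAdd * T (expSum g).toAdd) *
          ((n : ℚ[T;T⁻¹]) * C ((n : ℚ)⁻¹)) := by
        linear_combination (n : ℚ[T;T⁻¹]) * e2
      rw [n_mul_inv, mul_one] at e4
      exact e4.symm
    rw [← T_add] at e3
    have e5 := congrArg (fun f : ℚ[T;T⁻¹] => f.coeff 0) e3
    by_contra hne
    have e6 : ¬ ((expSum g).toAdd + (expSum g).toAdd = 0) := by omega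
    simp [T_apply, e6] at e5
  have hGP : G = PP (α g) := by rw [hG, tw_gr, hφg]; simp
  obtain ⟨x, hx⟩ : ∃ x, α g = DihedralGroup.r x := by
    have h1 := sgn_eq h g
    rw [hφg, zpow_zero] at h1
    rcases hαg : α g with y | y
    · exact ⟨y, rfl⟩
    · rw [hαg] at h1
      simp [sgn] at h1
  have hJG : J * G = PP (DihedralGroup.sr (k + x)) := by
    rw [hGP, hx, hJdef, ← PP_mul, DihedralGroup.sr_mul_r]
  -- choose `κ = r l` with `κ J κ⁻¹ = J G`
  obtain ⟨l, hl⟩ : ∃ l : ZMod n, 2 * l = -x := ⟨↑(u2⁻¹) * (-x), by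
    rw [← mul_assoc, ← hu2, Units.mul_inv, one_mul]⟩
  have hconj : PP (DihedralGroup.r (-l)) * (J * G) = J * PP (DihedralGroup.r (-l)) := by
    rw [hJG, hJdef, ← PP_mul, ← PP_mul, DihedralGroup.r_mul_sr, DihedralGroup.sr_mul_r]
    congr 2
    have : k + x - -l = k + x + 2 * l - l := by ring
    rw [this, hl]
    ring
  set Z' := PP (DihedralGroup.r (-l)) * Z with hZ'
  have hZ'J : Z' * J = J * Z' := by
    rw [hZ', mul_assoc, ← hHZ, ← mul_assoc, hconj, mul_assoc]
  have hRX : RR * X = X.map (substNeg ℚ) * RR := RR_mul_tw h _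
  have hRA : RR * (A - 1) = (A - 1).map (substNeg ℚ) * RR := by
    rw [← hAm]; exact RR_mul_tw h _
  have hRZ' : RR * Z' = Z'.map (substNeg ℚ) * RR := by
    rw [hZ', hZ, Matrix.map_mul, Matrix.map_mul, PP_map, ← mul_assoc, RR_mul_r, mul_assoc,
      ← mul_assoc RR X, hRX, mul_assoc _ RR, hRA, mul_assoc, mul_assoc]
  have hEZ : EE * Z = Z * EE := by
    rw [hZ, ← mul_assoc, hEX, mul_assoc, hEA, mul_assoc]
  have hZ'E : Z' * EE = EE * Z' := by
    have e1 : Z' * EE = EE * Z := by rw [hZ', mul_assoc, ← hEZ, ← mul_assoc, PP_mul_EE]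
    have e2 : EE * Z' = EE * Z := by rw [hZ', ← mul_assoc, EE_mul_PP]
    rw [e1, e2]
  have hhalf : (C (1 / 2 : ℚ) + C (1 / 2 : ℚ) : ℚ[T;T⁻¹]) = 1 := by
    rw [← map_add]; norm_num
  obtain ⟨D, hD⟩ := wdet_split (substNeg ℚ) hhalf (substNeg_C _) EE_mul_EE (RR_mul hn)
    (mul_RR hn) hJJ hJE hEJ (PP_map _) (RR_mul_sr k) hRZ' hZ'J hZ'E
  have hD2 : wdet EE Z' = wdet EE X * wdet EE (A - 1) := by
    rw [hZ', wdet_mul EE_mul_EE hEZ, wdet_PP_r hn, one_mul, hZ, wdet_mul EE_mul_EE hEA]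
  -- divisibility
  obtain ⟨F, hF⟩ : ∃ F, wdet EE X = F * wdet EE (B - 1) := by
    apply wdet_dvd (S := - (QQ (i - j) * PP (DihedralGroup.r (i - j)))) (R := QQ (i - j))
      EE_mul_EE hEA hEB hfund
    have e1 : PP (DihedralGroup.r (i - j)) * A = B := by
      rw [hA, hB, tw_ga h, tw_gb h, mul_smul_comm, ← PP_mul, DihedralGroup.r_mul_sr]
      congr 3
      ring
    rw [← QQ_mul (i - j) hd]
    calc -(QQ (i - j) * PP (DihedralGroup.r (i - j))) * (A - 1) + QQ (i - j) * (B - 1)
        = QQ (i - j) * (B - PP (DihedralGroup.r (i - j)) * A) +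
            QQ (i - j) * (PP (DihedralGroup.r (i - j)) - 1) := by noncomm_ring
      _ = _ := by rw [e1, sub_self, mul_zero, zero_add]
  have hBA : wdet EE (B - 1) = wdet EE (A - 1) := by
    have e1 : J * (A - 1) * J = B - 1 := by rw [mul_sub, sub_mul, mul_one, hJJ, hJAJ]
    have e2 : EE * J = J * (EE : Matrix (ZMod n) (ZMod n) ℚ[T;T⁻¹]) := by rw [hEJ, hJE]
    have e3 : wdet EE J * wdet EE J = 1 := by
      rw [← wdet_mul EE_mul_EE e2, hJJ, wdet_one]
    rw [← e1, wdet_mul EE_mul_EE e2, wdet_mul EE_mul_EE hEA]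
    linear_combination wdet EE (A - 1) * e3
  have hτc : substNeg ℚ (wdet EE (A - 1)) = wdet EE (A - 1) := by
    rw [map_wdet _ EE_map]
    exact (wdet_inter (RR_mul hn) (mul_RR hn) hRA).symm
  have hdetA : (A - 1).det = (T 1 - 1) * wdet EE (A - 1) := by
    apply det_eq_mul_wdet EE_mul_EE det_one_add_smul_EE
    rw [← hAm, tw_mul_EE, map_sub, map_one, abK_gr, expSum_ga]
    rfl
  have hc : wdet EE (A - 1) ≠ 0 := by
    intro h0
    rw [hAm, hdetA, h0, mul_zero] at hA0
    exact hA0 rfl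
  haveI : UniqueFactorizationMonoid ℚ[T;T⁻¹] :=
    UniqueFactorizationMonoid.of_isLocalization
      (Submonoid.powers (Polynomial.X : Polynomial ℚ)) ℚ[T;T⁻¹]
  obtain ⟨N, hN⟩ := exists_norm_form (substNeg ℚ) substNeg_substNeg (F := F) (D₀ := 1)
    (c := wdet EE (A - 1)) (D := D) hc isRelPrime_one_right (by
      rw [one_mul, ← hD, hD2, hF, hBA, hτc]; ring)
  refine ⟨N, ?_⟩
  rw [hdetX, hBm, hdetB, hF, hN]
  ring

end

end Pool.Agent.H137R3.TB
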