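import Mathlib

/-!
# Two-bridge knot groups, Fox derivatives and Wada's invariant of a dihedral representation

* `relator m q` is Schubert's relator `w a w⁻¹ b⁻¹` of the two-bridge knot `S(m, q)`, where
  `w = a^{ε₁} b^{ε₂} ⋯ a^{ε_{m-2}} b^{ε_{m-1}}` and `ε_i = (-1)^⌊i q / m⌋`.
* `knotGroup m q = ⟨a, b ∣ w a = b w⟩` is the knot group; `a` and `b` are oriented meridians.
* `foxDeriv j` is the Fox derivative `∂/∂g_j : F → ℤ[F]`, where `g₀ = a`, `g₁ = b`.
* `permRep n` is the permutation representation of the dihedral group of order `2 n` on `ZMod n`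
  in which `y = r 1` acts by `k ↦ k - 1` and `x = sr 0` acts by `k ↦ -k`.
* `twist α` is the ring map `ℤ[F] → M_n(ℤ[t, t⁻¹])`, `g ↦ ϱ(α(g)) t^{φ(g)}`.
* `wada α j` is Wada's invariant, computed by deleting the column of `g_j`.
-/

namespace Pool.Agent.H137R3.TB

open LaurentPolynomial

noncomputable section

/-- The free group on the two generators `a`, `b` of the Schubert presentation. -/
abbrev F2 : Type := FreeGroup (Fin 2)

/-- The first generator (a meridian). -/
def ga : F2 := FreeGroup.of 0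

/-- The second generator (a meridian). -/
def gb : F2 := FreeGroup.of 1

/-- Schubert's exponent `ε_i = (-1)^⌊i q / m⌋`. -/
def schubertSign (m : ℕ) (q : ℤ) (i : ℕ) : ℤ := (-1) ^ (((i : ℤ) * q / (m : ℤ)).natAbs)

/-- Schubert's word `w = a^{ε₁} b^{ε₂} ⋯ a^{ε_{m-2}} b^{ε_{m-1}}` (the factor number `k + 1` is
a power of `a` if `k` is even and a power of `b` if `k` is odd). -/
def schubertWord (m : ℕ) (q : ℤ) : F2 :=
  ((List.range (m - 1)).map fun k => (if Even k then ga else gb) ^ schubertSign m q (k + 1)).prod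

/-- The relator `w a w⁻¹ b⁻¹` of the two-bridge knot `S(m, q)`. -/
def relator (m : ℕ) (q : ℤ) : F2 := schubertWord m q * ga * (schubertWord m q)⁻¹ * gb⁻¹

/-- The group `⟨a, b ∣ w a = b w⟩` of the two-bridge knot `S(m, q)`. -/
abbrev knotGroup (m : ℕ) (q : ℤ) : Type := PresentedGroup ({relator m q} : Set F2)

/-- Auxiliary group of pairs `(g, x)` with `(g, x) (h, y) = (g h, x + g y)`; it is used to define
Fox derivatives. -/
@[ext] structure FoxPair (F : Type) [Group F] where
  /-- the group element -/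
  g : F
  /-- the element of the group ring -/
  x : MonoidAlgebra ℤ F

namespace FoxPair

variable {F : Type} [Group F]

instance : Mul (FoxPair F) := ⟨fun p q => ⟨p.g * q.g, p.x + MonoidAlgebra.of ℤ F p.g * q.x⟩⟩

instance : One (FoxPair F) := ⟨⟨1, 0⟩⟩

instance : Inv (FoxPair F) := ⟨fun p => ⟨p.g⁻¹, -(MonoidAlgebra.of ℤ F p.g⁻¹ * p.x)⟩⟩

theorem mul_g (p q : FoxPair F) : (p * q).g = p.g * q.g := rfl

theorem mul_x (p q : FoxPair F) : (p * q).x = p.x + MonoidAlgebra.of ℤ F p.g * q.x := rfl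

theorem one_g : (1 : FoxPair F).g = 1 := rfl

theorem one_x : (1 : FoxPair F).x = 0 := rfl

theorem inv_g (p : FoxPair F) : (p⁻¹).g = p.g⁻¹ := rfl

theorem inv_x (p : FoxPair F) : (p⁻¹).x = -(MonoidAlgebra.of ℤ F p.g⁻¹ * p.x) := rfl

instance : Group (FoxPair F) :=
  Group.ofLeftAxioms
    (by
      intro a b c
      ext1
      · simp only [mul_g, mul_assoc]
      · simp only [mul_g, mul_x, map_mul, mul_add, mul_assoc, add_assoc])
    (by
      intro a
      ext1
      · simp only [mul_g, one_g, one_mul]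
      · simp only [one_x, one_g, mul_x, map_one, one_mul, zero_add])
    (by
      intro a
      ext1
      · simp only [mul_g, inv_g, one_g, inv_mul_cancel]
      · simp only [mul_x, inv_x, inv_g, one_x, neg_add_cancel])

end FoxPair

/-- The homomorphism `F → {(g, x)}`, `g_i ↦ (g_i, δ_{ij})`, whose second coordinate is the Fox
derivative with respect to `g_j`. -/
def foxHom (j : Fin 2) : F2 →* FoxPair F2 :=
  FreeGroup.lift fun i => ⟨FreeGroup.of i, if i = j then 1 else 0⟩

/-- The Fox derivative `∂u/∂g_j ∈ ℤ[F]`. It is characterised by `∂(uv) = ∂u + u ∂v` and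
`∂g_i/∂g_j = δ_{ij}`, see `foxDeriv_mul` and `foxDeriv_of`. -/
def foxDeriv (j : Fin 2) (u : F2) : MonoidAlgebra ℤ F2 := (foxHom j u).x

theorem foxHom_g (j : Fin 2) (u : F2) : (foxHom j u).g = u := by
  induction u using FreeGroup.induction_on with
  | C1 => rw [map_one]; rfl
  | of i => simp [foxHom]
  | inv_of i h => rw [map_inv, FoxPair.inv_g, h]
  | mul u v hu hv => rw [map_mul, FoxPair.mul_g, hu, hv]

theorem foxDeriv_mul (j : Fin 2) (u v : F2) :
    foxDeriv j (u * v) = foxDeriv j u + MonoidAlgebra.of ℤ F2 u * foxDeriv j v := by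
  unfold foxDeriv
  rw [map_mul, FoxPair.mul_x, foxHom_g]

theorem foxDeriv_of (j i : Fin 2) : foxDeriv j (FreeGroup.of i) = if i = j then 1 else 0 := by
  simp [foxDeriv, foxHom]

/-- The action of the dihedral group of order `2 n` on `ZMod n`: `y = r 1` acts by `k ↦ k - 1` and
`x = sr 0` acts by `k ↦ -k`; so `r i = y ^ i` acts by `k ↦ k - i` and `sr i = x y ^ i` acts by
`k ↦ i - k`. -/
def dihAct {n : ℕ} : DihedralGroup n → ZMod n → ZMod n
  | DihedralGroup.r i, k => k - i
  | DihedralGroup.sr i, k => i - k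

theorem dihAct_mul {n : ℕ} (g h : DihedralGroup n) (k : ZMod n) :
    dihAct (g * h) k = dihAct g (dihAct h k) := by
  rcases g with i | i <;> rcases h with j | j <;> simp [dihAct] <;> ring

theorem dihAct_one {n : ℕ} (k : ZMod n) : dihAct (1 : DihedralGroup n) k = k := by
  rw [DihedralGroup.one_def]; simp [dihAct]

/-- The permutation representation `ϱ` of the dihedral group by integer matrices:
`ϱ(g) e_l = e_{g l}`. -/
def permRep (n : ℕ) [NeZero n] : DihedralGroup n →* Matrix (ZMod n) (ZMod n) ℤ where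
  toFun g := Matrix.of fun k l => if dihAct g l = k then 1 else 0
  map_one' := by
    ext k l
    simp only [Matrix.of_apply, dihAct_one, Matrix.one_apply]
    by_cases h : l = k
    · subst h; simp
    · simp [h, Ne.symm h]
  map_mul' g h := by
    ext k l
    simp only [Matrix.of_apply, Matrix.mul_apply, dihAct_mul, mul_ite, mul_one, mul_zero]
    rw [Finset.sum_ite_eq]
    simp

/-- The homomorphism `φ : F → ℤ` with `φ(a) = φ(b) = 1`. -/
def expSum : F2 →* Multiplicative ℤ := FreeGroup.lift fun _ => Multiplicative.ofAdd 1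

/-- The abelianised ring map `ℤ[F] → ℤ[t, t⁻¹]`, `g ↦ t^{φ(g)}`. -/
def abel : MonoidAlgebra ℤ F2 →ₐ[ℤ] ℤ[T;T⁻¹] :=
  MonoidAlgebra.lift ℤ ℤ[T;T⁻¹] F2 ((AddMonoidAlgebra.of ℤ ℤ).comp expSum)

variable {n : ℕ} [NeZero n]

/-- The homomorphism `g ↦ t^{φ(g)} ϱ(α(g))` from the free group to `n × n` matrices over
`ℤ[t, t⁻¹]`, for a homomorphism `α` from the free group to the dihedral group. -/
def twistHom (α : F2 →* DihedralGroup n) :
    F2 →* Matrix (ZMod n) (ZMod n) ℤ[T;T⁻¹] where
  toFun g := (T (expSum g).toAdd : ℤ[T;T⁻¹]) •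
    ((permRep n (α g)).map (LaurentPolynomial.C : ℤ →+* ℤ[T;T⁻¹]))
  map_one' := by
    simp only [map_one, toAdd_one, T_zero, one_smul]
    exact Matrix.map_one _ (map_zero _) (map_one _)
  map_mul' g h := by
    rw [map_mul expSum, map_mul α, map_mul (permRep n), Matrix.map_mul, toAdd_mul, T_add,
      Matrix.smul_mul, Matrix.mul_smul, smul_smul]

/-- The ring map `Φ : ℤ[F] → M_n(ℤ[t, t⁻¹])` extending `g ↦ ϱ(α(g)) t^{φ(g)}`. -/
def twist (α : F2 →* DihedralGroup n) :
    MonoidAlgebra ℤ F2 →ₐ[ℤ] Matrix (ZMod n) (ZMod n) ℤ[T;T⁻¹] :=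
  MonoidAlgebra.lift ℤ _ F2 (twistHom α)

/-- The numerator of Wada's invariant of the presentation `⟨a, b ∣ r⟩` obtained by deleting the
column of `g_j`: the determinant of `Φ(∂r/∂g_i)`, where `g_i` is the other generator. -/
def wadaNum (m : ℕ) (q : ℤ) (α : knotGroup m q →* DihedralGroup n) (j : Fin 2) : ℤ[T;T⁻¹] :=
  (twist (α.comp (PresentedGroup.mk _)) (foxDeriv (1 - j) (relator m q))).det

/-- The denominator `det Φ(g_j - 1)` of Wada's invariant. -/
def wadaDen (m : ℕ) (q : ℤ) (α : knotGroup m q →* DihedralGroup n) (j : Fin 2) : ℤ[T;T⁻¹] :=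
  (twist (α.comp (PresentedGroup.mk _)) (MonoidAlgebra.of ℤ F2 (FreeGroup.of j) - 1)).det

/-- Wada's twisted Alexander polynomial `T_α(t) = det Φ(∂r/∂g_i) / det Φ(g_j - 1)` of the two-bridge
knot `S(m, q)`, an element of the fraction field of `ℤ[t, t⁻¹]`. -/
def wada (m : ℕ) (q : ℤ) (α : knotGroup m q →* DihedralGroup n) (j : Fin 2) :
    FractionRing ℤ[T;T⁻¹] :=
  algebraMap ℤ[T;T⁻¹] (FractionRing ℤ[T;T⁻¹]) (wadaNum m q α j) /
    algebraMap ℤ[T;T⁻¹] (FractionRing ℤ[T;T⁻¹]) (wadaDen m q α j)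

/-- `Δ` is the Alexander polynomial of the two-bridge knot `S(m, q)`: a generator of the first
elementary ideal, i.e. of the ideal generated by the entries `∂r/∂a`, `∂r/∂b` of the (abelianised)
Alexander matrix. -/
def IsAlexanderPolynomial (m : ℕ) (q : ℤ) (Δ : ℤ[T;T⁻¹]) : Prop :=
  Ideal.span {Δ} = Ideal.span {abel (foxDeriv 0 (relator m q)), abel (foxDeriv 1 (relator m q))}

/-- The substitution `t ↦ -t` on `R[t, t⁻¹]`. -/
def substNeg (R : Type) [CommRing R] : R[T;T⁻¹] →+* R[T;T⁻¹] :=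
  LaurentPolynomial.eval₂ LaurentPolynomial.C
    (-(⟨T 1, T (-1), by rw [← T_add]; simp, by rw [← T_add]; simp⟩ : (R[T;T⁻¹])ˣ))

end

end Pool.Agent.H137R3.TB
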