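import Pool.Agent.H137R3.TB.Core2

/-!
# Descent from `ℚ[t, t⁻¹]` to `ℤ[t, t⁻¹]`
-/

namespace Pool.Agent.H137R3.TB

open LaurentPolynomial Matrix

noncomputable section

variable {n : ℕ} [NeZero n]

theorem exists_clear (N : ℚ[T;T⁻¹]) : ∃ (k : ℤ) (M : ℤ[T;T⁻¹]), k ≠ 0 ∧
    incl M = C (k : ℚ) * N := by
  induction N using LaurentPolynomial.induction_on' with
  | add p q hp hq =>
    obtain ⟨k1, M1, h1, e1⟩ := hp
    obtain ⟨k2, M2, h2, e2⟩ := hq
    refine ⟨k1 * k2, C k2 * M1 + C k1 * M2, mul_ne_zero h1 h2, ?_⟩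
    rw [map_add, map_mul, map_mul, e1, e2, incl_C, incl_C]
    push_cast
    rw [map_mul]
    ring
  | C_mul_T n a =>
    refine ⟨a.den, C a.num * T n, by exact_mod_cast a.den_nz, ?_⟩
    rw [map_mul, incl_C, incl_T, ← mul_assoc, ← map_mul]
    congr 2
    have := Rat.den_mul_eq_num a
    push_cast
    exact this.symm

theorem prime_C {p : ℤ} (hp : Prime p) : Prime (C p : ℤ[T;T⁻¹]) := by
  have h1 : Prime (Polynomial.C p : Polynomial ℤ) := Polynomial.prime_C_iff.mpr hp
  have h2 : (Ideal.span {(Polynomial.C p : Polynomial ℤ)}).IsPrime :=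
    (Ideal.span_singleton_prime h1.ne_zero).mpr h1
  have h3 : Disjoint ((Submonoid.powers (Polynomial.X : Polynomial ℤ) : Submonoid _) :
      Set (Polynomial ℤ)) (Ideal.span {(Polynomial.C p : Polynomial ℤ)} : Ideal _) := by
    rw [Set.disjoint_left]
    rintro x ⟨k, rfl⟩ hx
    simp only [SetLike.mem_coe, Ideal.mem_span_singleton] at hx
    obtain ⟨g, hg⟩ := hx
    have := congrArg (fun f => Polynomial.coeff f k) hg
    simp only [Polynomial.coeff_X_pow, if_true, Polynomial.coeff_C_mul] at this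
    exact hp.not_unit (IsUnit.of_mul_eq_one _ this.symm)
  have h4 := IsLocalization.isPrime_of_isPrime_disjoint
    (Submonoid.powers (Polynomial.X : Polynomial ℤ)) ℤ[T;T⁻¹] _ h2 h3
  rw [Ideal.map_span, Set.image_singleton, algebraMap_eq_toLaurent, Polynomial.toLaurent_C] at h4
  refine (Ideal.span_singleton_prime ?_).mp h4
  intro h0
  have := congrArg (fun f : ℤ[T;T⁻¹] => f.coeff 0) h0
  simp only [C_apply, if_true] at this
  exact hp.ne_zero this

/-- Every prime divisor of a nonzero integer constant divides a prime constant. -/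
theorem exists_prime_of_dvd {d : ℤ[T;T⁻¹]} (hd : Prime d) {k : ℤ} (hk : k ≠ 0)
    (h : d ∣ C k) : ∃ p : ℤ, Prime p ∧ d ∣ C p := by
  induction k using UniqueFactorizationMonoid.induction_on_prime with
  | h₁ => exact absurd rfl hk
  | h₂ x hx => exact absurd (isUnit_of_dvd_unit h (hx.map _)) hd.not_unit
  | h₃ a p ha hp ih =>
    rw [map_mul] at h
    rcases hd.dvd_or_dvd h with h1 | h1
    · exact ⟨p, hp, h1⟩
    · exact ih ha h1

theorem isRelPrime_C {k : ℤ} (hk : k ≠ 0) {x : ℤ[T;T⁻¹]}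
    (hx : ∀ p : ℤ, Prime p → ¬ (C p : ℤ[T;T⁻¹]) ∣ x) : IsRelPrime (C k : ℤ[T;T⁻¹]) x := by
  have : UniqueFactorizationMonoid ℤ[T;T⁻¹] :=
    UniqueFactorizationMonoid.of_isLocalization
      (Submonoid.powers (Polynomial.X : Polynomial ℤ)) ℤ[T;T⁻¹]
  have hC : (C k : ℤ[T;T⁻¹]) ≠ 0 := by
    intro h0
    have := congrArg (fun f : ℤ[T;T⁻¹] => f.coeff 0) h0
    simp only [C_apply, if_true] at this
    exact hk this
  rw [UniqueFactorizationMonoid.isRelPrime_iff_no_prime_factors hC]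
  intro d hd1 hd2 hd
  obtain ⟨p, hp, hdp⟩ := exists_prime_of_dvd hd hk hd1
  apply hx p hp
  have hass : Associated d (C p) := hd.associated_of_dvd (prime_C hp) hdp
  exact hass.symm.dvd.trans hd2

theorem C_dvd_coeff {p : ℤ} {x : ℤ[T;T⁻¹]} (h : (C p : ℤ[T;T⁻¹]) ∣ x) (k : ℤ) :
    p ∣ x.coeff k := by
  obtain ⟨y, rfl⟩ := h
  rw [← smul_eq_C_mul]
  exact ⟨y.coeff k, by simp [-zsmul_eq_mul]⟩

/-- `det (t P - 1)` as the image of a polynomial with constant term `±1`. -/
theorem det_poly (P : Matrix (ZMod n) (ZMod n) ℤ) : ∃ f : Polynomial ℤ,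
    ((T 1 : ℤ[T;T⁻¹]) • P.map (C : ℤ →+* ℤ[T;T⁻¹]) - 1).det = Polynomial.toLaurent f ∧
      f.eval 0 = (-1) ^ n := by
  refine ⟨((Polynomial.X : Polynomial ℤ) • P.map (Polynomial.C : ℤ →+* _) - 1).det, ?_, ?_⟩
  · have h := RingHom.map_det (Polynomial.toLaurent : Polynomial ℤ →+* ℤ[T;T⁻¹])
      ((Polynomial.X : Polynomial ℤ) • P.map (Polynomial.C : ℤ →+* _) - 1)
    rw [h]
    congr 1
    ext1 k l
    simp only [Matrix.sub_apply, Matrix.smul_apply, Matrix.map_apply, smul_eq_mul,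
      RingHom.mapMatrix_apply, map_sub, map_mul, Polynomial.toLaurent_X, Polynomial.toLaurent_C]
    congr 1
    by_cases hkl : k = l
    · subst hkl; simp
    · simp [Matrix.one_apply_ne hkl]
  · have h := RingHom.map_det (Polynomial.evalRingHom (0 : ℤ))
      ((Polynomial.X : Polynomial ℤ) • P.map (Polynomial.C : ℤ →+* _) - 1)
    rw [Polynomial.coe_evalRingHom] at h
    rw [h]
    have h2 : (Polynomial.evalRingHom (0 : ℤ)).mapMatrix
        ((Polynomial.X : Polynomial ℤ) • P.map (Polynomial.C : ℤ →+* _) - 1) =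
        (-1 : Matrix (ZMod n) (ZMod n) ℤ) := by
      ext1 k l
      simp only [Matrix.sub_apply, Matrix.smul_apply, Matrix.map_apply, smul_eq_mul,
        RingHom.mapMatrix_apply, map_sub, map_mul, Polynomial.coe_evalRingHom,
        Polynomial.eval_X, zero_mul, zero_sub, Matrix.neg_apply]
      by_cases hkl : k = l
      · subst hkl; simp
      · simp [Matrix.one_apply_ne hkl]
    rw [h2, Matrix.det_neg, Matrix.det_one, mul_one, ZMod.card]

theorem twist_of (α : F2 →* DihedralGroup n) (l : Fin 2) :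
    twist α (gr (FreeGroup.of l) - 1) = (T 1 : ℤ[T;T⁻¹]) •
      (permRep n (α (FreeGroup.of l))).map (C : ℤ →+* ℤ[T;T⁻¹]) - 1 := by
  rw [map_sub, map_one]
  congr 1
  have h1 : twist α (gr (FreeGroup.of l)) = twistHom α (FreeGroup.of l) := by
    unfold twist gr
    exact MonoidAlgebra.lift_of _ _
  rw [h1]
  simp [twistHom, expSum]

theorem den_ne_zero (α : F2 →* DihedralGroup n) (l : Fin 2) :
    (twist α (gr (FreeGroup.of l) - 1)).det ≠ 0 := by
  rw [twist_of]
  obtain ⟨f, hf, hf0⟩ := det_poly (permRep n (α (FreeGroup.of l)))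
  rw [hf]
  intro h0
  have h1 : f = 0 := by
    apply Polynomial.toLaurent_injective
    rw [h0, map_zero]
  rw [h1, Polynomial.eval_zero] at hf0
  exact pow_ne_zero n (by norm_num) hf0.symm

theorem den_prim (α : F2 →* DihedralGroup n) (l : Fin 2) {p : ℤ} (hp : Prime p) :
    ¬ (C p : ℤ[T;T⁻¹]) ∣ (twist α (gr (FreeGroup.of l) - 1)).det := by
  rw [twist_of]
  obtain ⟨f, hf, hf0⟩ := det_poly (permRep n (α (FreeGroup.of l)))
  rw [hf]
  intro h
  have h1 := C_dvd_coeff h 0
  have h2 : (Polynomial.toLaurent f).coeff 0 = f.coeff 0 := by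
    have := coeff_toLaurent f
    rw [this]
    have h3 : (0 : ℤ) = ((0 : ℕ) : ℤ) := rfl
    rw [h3]
    first
      | exact Finsupp.mapDomain_apply Nat.cast_injective _ _
      | simp
  rw [h2, Polynomial.coeff_zero_eq_eval_zero, hf0] at h1
  exact hp.not_unit (isUnit_of_dvd_unit h1 ((isUnit_one.neg).pow n))

/-- The evaluation of the abelianised Fox derivative at `t = 1` is an exponent sum. -/
def ev1 : ℤ[T;T⁻¹] →+* ℤ := LaurentPolynomial.eval₂ (RingHom.id ℤ) 1

theorem ev1_abel_gr (u : F2) : ev1 (abel (gr u)) = 1 := by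
  have h1 : abel (gr u) = T (expSum u).toAdd := by
    unfold abel gr
    exact MonoidAlgebra.lift_of _ _
  rw [h1]
  simp [ev1]

theorem ev1_relator (m : ℕ) (q : ℤ) : ev1 (abel (foxDeriv 0 (relator m q))) = 1 := by
  unfold relator
  rw [foxDeriv_mul, foxDeriv_mul, foxDeriv_mul, foxDeriv_inv, foxDeriv_inv]
  simp only [map_add, map_mul, map_neg]
  have h1 : ∀ u : F2, ev1 (abel (MonoidAlgebra.of ℤ F2 u)) = 1 := ev1_abel_gr
  have h2 : foxDeriv 0 ga = 1 := by unfold ga; rw [foxDeriv_of]; simp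
  have h3 : foxDeriv 0 gb = 0 := by unfold gb; rw [foxDeriv_of]; simp
  simp only [h1, h2, h3, map_one, map_zero]
  ring

theorem abel_prim (m : ℕ) (q : ℤ) {p : ℤ} (hp : Prime p) :
    ¬ (C p : ℤ[T;T⁻¹]) ∣ abel (foxDeriv 0 (relator m q)) := by
  intro h
  have h1 := map_dvd ev1 h
  rw [ev1_relator] at h1
  have h2 : ev1 (C p) = p := by simp [ev1]
  rw [h2] at h1
  exact hp.not_unit (isUnit_of_dvd_one h1)

theorem tw_det (α : F2 →* DihedralGroup n) (x : MonoidAlgebra ℤ F2) :
    (tw α x).det = incl (twist α x).det := by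
  rw [RingHom.map_det]; rfl

/-- The integral factorisation. -/
theorem integral_core (hn : Odd n) {m : ℕ} (hm : Odd m) {q : ℤ} (hq : Odd q)
    (hmq : IsCoprime (m : ℤ) q) {α : F2 →* DihedralGroup n} {i j : ZMod n} (h : IsRefl α i j)
    (hd : IsUnit (i - j)) (hα : α (relator m q) = 1) :
    ∃ N : ℤ[T;T⁻¹], (T 1 - 1) * (twist α (foxDeriv 0 (relator m q))).det =
      (abel (foxDeriv 0 (relator m q)) * (twist α (gr gb - 1)).det) * (N * substNeg ℤ N) := by
  have : UniqueFactorizationMonoid ℤ[T;T⁻¹] :=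
    UniqueFactorizationMonoid.of_isLocalization
      (Submonoid.powers (Polynomial.X : Polynomial ℤ)) ℤ[T;T⁻¹]
  have hφ : expSum (relator m q) = 1 := by
    unfold relator
    rw [map_mul, map_mul, map_mul, map_inv, map_inv, expSum_ga, expSum_gb, mul_right_comm,
      mul_inv_cancel_right, mul_inv_cancel]
  have hA0 : (tw α (gr ga - 1)).det ≠ 0 := by
    rw [tw_det]
    intro h0
    have := incl_injective (h0.trans (map_zero incl).symm)
    exact den_ne_zero α 0 this
  obtain ⟨N, hN⟩ := core hn h hd hα hφ (swap_relator hm.pos hm hq hmq) hA0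
  obtain ⟨k, M, hk, hM⟩ := exists_clear N
  have hrel : IsRelPrime (C k : ℤ[T;T⁻¹])
      (abel (foxDeriv 0 (relator m q)) * (twist α (gr gb - 1)).det) := by
    apply isRelPrime_C hk
    intro p hp hdvd
    rcases (prime_C hp).dvd_or_dvd hdvd with h1 | h1
    · exact abel_prim m q hp h1
    · exact den_prim α 1 hp h1
  have hC : (C k : ℤ[T;T⁻¹]) ≠ 0 := by
    intro h0
    have := congrArg (fun f : ℤ[T;T⁻¹] => f.coeff 0) h0
    simp only [C_apply, if_true] at this
    exact hk this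
  apply exists_norm_form (substNeg ℤ) substNeg_substNeg (c := C k) (D := M) hC hrel
  apply incl_injective
  rw [substNeg_C, map_mul, map_mul, map_mul, map_mul, map_mul, map_mul, incl_substNeg, hM, incl_C,
    map_mul (substNeg ℚ), substNeg_C, map_sub, map_one, incl_T]
  rw [tw_det, tw_det] at hN
  have hab : abK (foxDeriv 0 (relator m q)) = incl (abel (foxDeriv 0 (relator m q))) := rfl
  rw [hab] at hN
  linear_combination (C (k : ℚ)) ^ 2 * hN

end

end Pool.Agent.H137R3.TB
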