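import Pool.Agent.H137R3.TB.Defs
import Pool.Agent.H137R3.TB.Alg

/-!
# The permutation representation of the dihedral group over `ℚ[t, t⁻¹]`
-/

namespace Pool.Agent.H137R3.TB

open LaurentPolynomial Matrix

noncomputable section

theorem substNeg_C {R : Type} [CommRing R] (x : R) : substNeg R (C x) = C x := by
  simp [substNeg]

theorem substNeg_T_one {R : Type} [CommRing R] : substNeg R (T 1) = - T 1 := by
  simp [substNeg]

theorem substNeg_T_neg_one {R : Type} [CommRing R] : substNeg R (T (-1)) = - T (-1) := by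
  have h1 : substNeg R (T 1) * substNeg R (T (-1)) = 1 := by
    rw [← map_mul, ← T_add]; simp
  have h2 : (T (-1) : R[T;T⁻¹]) * T 1 = 1 := by rw [← T_add]; simp
  rw [substNeg_T_one] at h1
  calc substNeg R (T (-1)) = (T (-1) * T 1) * substNeg R (T (-1)) := by rw [h2, one_mul]
    _ = - T (-1) * (-T 1 * substNeg R (T (-1))) := by ring
    _ = - T (-1) := by rw [h1, mul_one]

theorem substNeg_ringHom_ext {R S : Type} [CommRing R] [CommRing S] {f g : R[T;T⁻¹] →+* S}
    (hC : ∀ x, f (C x) = g (C x)) (hT : f (T 1) = g (T 1)) : f = g := by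
  have hT' : f (T (-1)) = g (T (-1)) := by
    have h2 : (T (-1) : R[T;T⁻¹]) * T 1 = 1 := by rw [← T_add]; simp
    have h3 : f (T (-1)) * f (T 1) = 1 := by rw [← map_mul, h2, map_one]
    have h4 : g (T (-1)) * g (T 1) = 1 := by rw [← map_mul, h2, map_one]
    calc f (T (-1)) = f (T (-1)) * (g (T (-1)) * g (T 1)) := by rw [h4, mul_one]
      _ = g (T (-1)) * (f (T (-1)) * f (T 1)) := by rw [hT]; ring
      _ = g (T (-1)) := by rw [h3, mul_one]
  refine RingHom.ext fun x => ?_
  induction x using LaurentPolynomial.induction_on with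
  | h_C a => exact hC a
  | h_add hp hq => rw [map_add, map_add, hp, hq]
  | h_C_mul_T n a ih =>
    rw [T_add, ← mul_assoc, map_mul, ih, hT, map_mul g (C a * T n)]
  | h_C_mul_T_Z n a ih =>
    rw [sub_eq_add_neg, T_add, ← mul_assoc, map_mul, ih, hT', map_mul g (C a * T (-n))]

theorem substNeg_substNeg {R : Type} [CommRing R] (x : R[T;T⁻¹]) :
    substNeg R (substNeg R x) = x := by
  have : (substNeg R).comp (substNeg R) = RingHom.id _ := by
    apply substNeg_ringHom_ext
    · intro x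
      simp [substNeg_C]
    · simp [substNeg_T_one]
  exact congrArg (fun f : R[T;T⁻¹] →+* R[T;T⁻¹] => f x) this

/-- The inclusion `ℤ[t, t⁻¹] → ℚ[t, t⁻¹]`. -/
def incl : ℤ[T;T⁻¹] →+* ℚ[T;T⁻¹] := AddMonoidAlgebra.mapRingHom ℤ (Int.castRingHom ℚ)

theorem incl_C (x : ℤ) : incl (C x) = C (x : ℚ) := by
  unfold incl
  rw [← single_eq_C, AddMonoidAlgebra.mapRingHom_single]
  rfl

theorem incl_T (k : ℤ) : incl (T k) = T k := by
  unfold incl T
  rw [AddMonoidAlgebra.mapRingHom_single]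
  simp

theorem incl_injective : Function.Injective incl := by
  intro x y h
  ext k
  have h1 : (incl x).coeff k = (incl y).coeff k := by rw [h]
  simpa [incl] using h1

theorem incl_substNeg (x : ℤ[T;T⁻¹]) : incl (substNeg ℤ x) = substNeg ℚ (incl x) := by
  have : incl.comp (substNeg ℤ) = (substNeg ℚ).comp incl := by
    apply substNeg_ringHom_ext
    · intro x
      simp [substNeg_C, incl_C]
    · simp [substNeg_T_one, incl_T]
  exact congrArg (fun f : ℤ[T;T⁻¹] →+* ℚ[T;T⁻¹] => f x) this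

variable {n : ℕ} [NeZero n]

/-- The permutation matrices over `ℚ[t, t⁻¹]`. -/
def PP (g : DihedralGroup n) : Matrix (ZMod n) (ZMod n) ℚ[T;T⁻¹] :=
  (Int.castRingHom ℚ[T;T⁻¹]).mapMatrix (permRep n g)

theorem PP_mul (g h : DihedralGroup n) : PP (g * h) = PP g * PP h := by
  simp only [PP, map_mul]

theorem PP_one : PP (1 : DihedralGroup n) = 1 := by
  simp only [PP, map_one]

theorem PP_apply (g : DihedralGroup n) (k l : ZMod n) :
    PP g k l = if dihAct g l = k then 1 else 0 := by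
  simp [PP, permRep]

theorem PP_map (g : DihedralGroup n) : (PP g).map (substNeg ℚ) = PP g := by
  ext1 k l
  rw [Matrix.map_apply, PP_apply]
  split_ifs <;> simp

/-- The idempotent with all entries `1 / n`. -/
def EE : Matrix (ZMod n) (ZMod n) ℚ[T;T⁻¹] := Matrix.of fun _ _ => C ((n : ℚ)⁻¹)

theorem n_mul_inv : (n : ℚ[T;T⁻¹]) * C ((n : ℚ)⁻¹) = 1 := by
  have h1 : (n : ℚ[T;T⁻¹]) = C (n : ℚ) := by simp
  have h2 : (n : ℚ) ≠ 0 := by exact_mod_cast NeZero.ne n
  rw [h1, ← map_mul, mul_inv_cancel₀ h2, map_one]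

theorem EE_mul_EE : (EE : Matrix (ZMod n) (ZMod n) ℚ[T;T⁻¹]) * EE = EE := by
  ext1 k l
  simp only [EE, Matrix.mul_apply, Matrix.of_apply, Finset.sum_const, Finset.card_univ,
    ZMod.card, nsmul_eq_mul]
  rw [← mul_assoc, n_mul_inv, one_mul]

theorem dihAct_inv_cancel (g : DihedralGroup n) (k : ZMod n) : dihAct g (dihAct g⁻¹ k) = k := by
  rw [← dihAct_mul, mul_inv_cancel, dihAct_one]

theorem PP_mul_EE (g : DihedralGroup n) : PP g * EE = EE := by
  ext1 k l
  simp only [EE, Matrix.mul_apply, Matrix.of_apply, PP_apply]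
  rw [Finset.sum_eq_single (dihAct g⁻¹ k)]
  · rw [dihAct_inv_cancel, if_pos rfl, one_mul]
  · intro x _ hx
    rw [if_neg, zero_mul]
    intro h
    apply hx
    rw [← h, ← dihAct_mul, inv_mul_cancel, dihAct_one]
  · intro h
    exact absurd (Finset.mem_univ _) h

theorem EE_mul_PP (g : DihedralGroup n) : EE * PP g = EE := by
  ext1 k l
  simp only [EE, Matrix.mul_apply, Matrix.of_apply, PP_apply]
  rw [Finset.sum_eq_single (dihAct g l)]
  · rw [if_pos rfl, mul_one]
  · intro x _ hx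
    rw [if_neg (Ne.symm hx), mul_zero]
  · intro h
    exact absurd (Finset.mem_univ _) h

theorem EE_map : (EE : Matrix (ZMod n) (ZMod n) ℚ[T;T⁻¹]).map (substNeg ℚ) = EE := by
  ext1 k l
  simp only [EE, Matrix.map_apply, Matrix.of_apply, substNeg_C]

theorem det_one_add_smul_EE (c : ℚ[T;T⁻¹]) :
    (1 + c • (EE : Matrix (ZMod n) (ZMod n) ℚ[T;T⁻¹])).det = 1 + c := by
  have h : c • (EE : Matrix (ZMod n) (ZMod n) ℚ[T;T⁻¹]) =
      (Matrix.of fun (_ : ZMod n) (_ : Unit) => c) *
        (Matrix.of fun (_ : Unit) (_ : ZMod n) => C ((n : ℚ)⁻¹)) := by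
    ext1 k l
    simp [EE, Matrix.mul_apply]
  rw [h, det_one_add_mul_comm, det_unique]
  simp only [Matrix.add_apply, Matrix.one_apply_eq, Matrix.mul_apply, Matrix.of_apply,
    Finset.sum_const, Finset.card_univ, ZMod.card, nsmul_eq_mul]
  rw [← mul_assoc, n_mul_inv, one_mul]

theorem theta_identity (p : Matrix (ZMod n) (ZMod n) ℚ[T;T⁻¹]) (N : ℕ) :
    (∑ k ∈ Finset.range N, (k : ℚ[T;T⁻¹]) • p ^ k) * (p - 1) =
      (N : ℚ[T;T⁻¹]) • p ^ N - ∑ k ∈ Finset.range N, p ^ (k + 1) := by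
  induction N with
  | zero => simp
  | succ N ih =>
    rw [Finset.sum_range_succ, Finset.sum_range_succ, add_mul, ih, smul_mul_assoc, mul_sub, mul_one,
      ← pow_succ, smul_sub]
    push_cast
    rw [add_smul, one_smul]
    abel

theorem PP_pow (g : DihedralGroup n) (k : ℕ) : PP g ^ k = PP (g ^ k) := by
  induction k with
  | zero => rw [pow_zero, pow_zero, PP_one]
  | succ k ih => rw [pow_succ, pow_succ, ih, PP_mul]

theorem sum_PP_pow (d : ZMod n) (hd : IsUnit d) :
    ∑ k ∈ Finset.range n, PP (DihedralGroup.r d) ^ (k + 1) =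
      (n : ℚ[T;T⁻¹]) • (EE : Matrix (ZMod n) (ZMod n) ℚ[T;T⁻¹]) := by
  ext1 a b
  rw [Matrix.sum_apply, Matrix.smul_apply]
  simp only [PP_pow, DihedralGroup.r_pow, PP_apply, EE, Matrix.of_apply, smul_eq_mul]
  rw [n_mul_inv]
  obtain ⟨u, hu⟩ := hd
  have key : ∀ k ∈ Finset.range n,
      (b - d * ((k + 1 : ℕ) : ZMod n) = a ↔ k = ((↑(u⁻¹) * (b - a) - 1 : ZMod n)).val) := by
    intro k hk
    rw [Finset.mem_range] at hk
    constructor
    · intro h
      have h1 : ((k : ℕ) : ZMod n) = ↑(u⁻¹) * (b - a) - 1 := by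
        have : b - a = d * ((k : ZMod n) + 1) := by rw [← h]; push_cast; ring
        rw [this, ← hu, ← mul_assoc, Units.inv_mul, one_mul, add_sub_cancel_right]
      rw [← h1, ZMod.val_natCast, Nat.mod_eq_of_lt hk]
    · intro h
      have h1 : ((k : ℕ) : ZMod n) = ↑(u⁻¹) * (b - a) - 1 := by
        rw [h, ZMod.natCast_zmod_val]
      push_cast
      rw [h1, ← hu, sub_add_cancel, ← mul_assoc, Units.mul_inv, one_mul, sub_sub_cancel]
  have key2 : ∀ k ∈ Finset.range n,
      (if dihAct (DihedralGroup.r (d * ((k + 1 : ℕ) : ZMod n))) b = a then (1 : ℚ[T;T⁻¹]) else 0) =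
        if k = ((↑(u⁻¹) * (b - a) - 1 : ZMod n)).val then 1 else 0 := by
    intro k hk
    by_cases h : k = ((↑(u⁻¹) * (b - a) - 1 : ZMod n)).val
    · rw [if_pos h, if_pos]
      exact (key k hk).mpr h
    · rw [if_neg h, if_neg]
      exact fun h' => h ((key k hk).mp h')
  rw [Finset.sum_congr rfl key2, Finset.sum_ite_eq', if_pos]
  rw [Finset.mem_range]
  exact ZMod.val_lt _

/-- The inverse of `ϱ(y^d) - 1` on the complement of the constants. -/
def QQ (d : ZMod n) : Matrix (ZMod n) (ZMod n) ℚ[T;T⁻¹] :=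
  C ((n : ℚ)⁻¹) • ∑ k ∈ Finset.range n, (k : ℚ[T;T⁻¹]) • PP (DihedralGroup.r d) ^ k

theorem QQ_mul (d : ZMod n) (hd : IsUnit d) :
    QQ d * (PP (DihedralGroup.r d) - 1) = 1 - EE := by
  have h1 : PP (DihedralGroup.r d : DihedralGroup n) ^ n = 1 := by
    rw [PP_pow, DihedralGroup.r_pow]
    simp only [CharP.cast_eq_zero, mul_zero, DihedralGroup.r_zero, PP_one]
  rw [QQ, smul_mul_assoc, theta_identity, h1, sum_PP_pow d hd, smul_sub, smul_smul, smul_smul,
    mul_comm (C ((n : ℚ)⁻¹)), n_mul_inv, one_smul, one_smul]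

theorem mul_QQ (d : ZMod n) (hd : IsUnit d) :
    (PP (DihedralGroup.r d) - 1) * QQ d = 1 - EE := by
  rw [← QQ_mul d hd]
  have h : Commute (PP (DihedralGroup.r d) - 1) (QQ d) := by
    unfold QQ
    apply Commute.smul_right
    apply Commute.sum_right
    intro k _
    apply Commute.smul_right
    apply Commute.pow_right
    exact (Commute.refl _).sub_left (Commute.one_left _)
  exact h

/-- The intertwiner between the representation on the complement of the constants and its twist by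
the sign. -/
def RR : Matrix (ZMod n) (ZMod n) ℚ[T;T⁻¹] :=
  PP (DihedralGroup.r 1) - PP (DihedralGroup.r (-1))

theorem isUnit_two (hn : Odd n) : IsUnit (2 : ZMod n) := by
  have h : Nat.Coprime 2 n := by
    rw [Nat.coprime_two_left]
    exact hn
  have := (ZMod.isUnit_iff_coprime 2 n).mpr h
  simpa using this

theorem RR_eq : (RR : Matrix (ZMod n) (ZMod n) ℚ[T;T⁻¹]) =
    (PP (DihedralGroup.r 2) - 1) * PP (DihedralGroup.r (-1)) := by
  rw [sub_mul, one_mul, ← PP_mul, DihedralGroup.r_mul_r, RR]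
  congr 3
  ring

theorem RR_eq' : (RR : Matrix (ZMod n) (ZMod n) ℚ[T;T⁻¹]) =
    PP (DihedralGroup.r (-1)) * (PP (DihedralGroup.r 2) - 1) := by
  rw [mul_sub, mul_one, ← PP_mul, DihedralGroup.r_mul_r, RR]
  congr 3
  ring

theorem RR_mul (hn : Odd n) :
    (RR : Matrix (ZMod n) (ZMod n) ℚ[T;T⁻¹]) * (PP (DihedralGroup.r 1) * QQ 2) = 1 - EE := by
  rw [RR_eq, mul_assoc, ← mul_assoc (PP (DihedralGroup.r (-1))), ← PP_mul,
    DihedralGroup.r_mul_r]
  simp only [neg_add_cancel, DihedralGroup.r_zero, PP_one, one_mul]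
  exact mul_QQ 2 (isUnit_two hn)

theorem mul_RR (hn : Odd n) :
    (PP (DihedralGroup.r 1) * QQ 2) * (RR : Matrix (ZMod n) (ZMod n) ℚ[T;T⁻¹]) = 1 - EE := by
  rw [RR_eq, mul_assoc, ← mul_assoc (QQ 2), QQ_mul 2 (isUnit_two hn), sub_mul, one_mul, mul_sub,
    ← PP_mul, EE_mul_PP, PP_mul_EE, DihedralGroup.r_mul_r]
  simp only [add_neg_cancel, DihedralGroup.r_zero, PP_one]

theorem RR_mul_r (i : ZMod n) : RR * PP (DihedralGroup.r i) = PP (DihedralGroup.r i) * RR := by
  simp only [RR, sub_mul, mul_sub, ← PP_mul, DihedralGroup.r_mul_r]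
  congr 3 <;> ring

theorem RR_mul_sr (i : ZMod n) :
    RR * PP (DihedralGroup.sr i) = - (PP (DihedralGroup.sr i) * RR) := by
  simp only [RR, sub_mul, mul_sub, ← PP_mul, DihedralGroup.r_mul_sr, DihedralGroup.sr_mul_r,
    neg_sub]
  congr 3 <;> ring

/-- The determinant of a rotation is `1`. -/
theorem det_PP_r (hn : Odd n) (i : ZMod n) : (PP (DihedralGroup.r i)).det = 1 := by
  have h1 : (permRep n (DihedralGroup.r i)).det = 1 := by
    have h2 : (permRep n (DihedralGroup.r i)).det ^ n = 1 := by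
      rw [← det_pow, ← map_pow, DihedralGroup.r_pow]
      simp
    have h3 := hn.strictMono_pow (R := ℤ)
    apply h3.injective
    simpa using h2
  unfold PP
  rw [← RingHom.map_det, h1, map_one]

theorem wdet_PP_r (hn : Odd n) (i : ZMod n) : wdet EE (PP (DihedralGroup.r i)) = 1 := by
  have h := det_eq_mul_wdet (M := PP (DihedralGroup.r i)) (e := 1) EE_mul_EE det_one_add_smul_EE
    (by rw [PP_mul_EE, one_smul])
  rw [det_PP_r hn, one_mul] at h
  exact h.symm

end

end Pool.Agent.H137R3.TB
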